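import Mathlib
import Pool.Agent.Helper379.MahlerExp

set_option autoImplicit false

/-! Explicit Hermite–Padé forms of the first kind for the exponentials `e^{k_i z}` at `z = 1`:
divided differences with multiplicities, written through power series. -/

namespace TH456.TI

open PowerSeries Finset

/-- the power series of `(d + X)⁻¹` -/
noncomputable def g (d : ℚ) : ℚ⟦X⟧ := PowerSeries.mk fun s => (-1) ^ s / d ^ (s + 1)

theorem lin_mul_g (d : ℚ) (hd : d ≠ 0) : (C d + X) * g d = 1 := by
  ext s
  rcases s with _ | s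
  · rw [add_mul, map_add, coeff_C_mul, coeff_zero_X_mul]
    simp [g, hd]
  · rw [add_mul, map_add, coeff_C_mul, coeff_succ_X_mul, coeff_one, if_neg (Nat.succ_ne_zero s)]
    simp only [g, coeff_mk]
    field_simp
    ring

variable {ι : Type*} [Fintype ι] [DecidableEq ι]

noncomputable def psi (k : ι → ℚ) (N : ι → ℕ) (i : ι) : ℚ⟦X⟧ :=
  ∏ l ∈ univ.erase i, g (k i - k l) ^ N l

noncomputable def Lam (k : ι → ℚ) (N : ι → ℕ) (τ : ι → ℚ⟦X⟧) : ℚ :=
  ∑ i, if N i = 0 then 0 else coeff (N i - 1) (psi k N i * τ i)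

theorem Lam_add (k : ι → ℚ) (N : ι → ℕ) (τ σ : ι → ℚ⟦X⟧) :
    Lam k N (fun i => τ i + σ i) = Lam k N τ + Lam k N σ := by
  unfold Lam
  rw [← Finset.sum_add_distrib]
  refine Finset.sum_congr rfl fun i _ => ?_
  split_ifs
  · simp
  · rw [mul_add, map_add]

theorem Lam_smul (k : ι → ℚ) (N : ι → ℕ) (c : ℚ) (τ : ι → ℚ⟦X⟧) :
    Lam k N (fun i => C c * τ i) = c * Lam k N τ := by
  unfold Lam
  rw [Finset.mul_sum]
  refine Finset.sum_congr rfl fun i _ => ?_
  split_ifs
  · simp
  · rw [← coeff_C_mul]
    congr 1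
    ring

theorem Lam_lin (k : ι → ℚ) (hk : Function.Injective k) (N : ι → ℕ) (b : ι) (hb : N b ≠ 0)
    (τ : ι → ℚ⟦X⟧) :
    Lam k N (fun i => (C (k i - k b) + X) * τ i) = Lam k (Function.update N b (N b - 1)) τ := by
  unfold Lam
  refine Finset.sum_congr rfl fun i _ => ?_
  by_cases hib : i = b
  · subst hib
    rw [if_neg hb, Function.update_self]
    have h1 : psi k (Function.update N i (N i - 1)) i = psi k N i := by
      unfold psi
      refine Finset.prod_congr rfl fun l hl => ?_
      rw [Function.update_of_ne (Finset.ne_of_mem_erase hl)]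
    rw [h1]
    show coeff (N i - 1) (psi k N i * ((C (k i - k i) + X) * τ i)) = _
    rw [sub_self, map_zero, zero_add]
    obtain ⟨n, hn⟩ : ∃ n, N i = n + 1 := ⟨N i - 1, by omega⟩
    have h2 : psi k N i * (X * τ i) = X * (psi k N i * τ i) := by ring
    rw [h2, hn, Nat.add_sub_cancel]
    rcases n with _ | n
    · simp
    · rw [coeff_succ_X_mul, if_neg (Nat.succ_ne_zero n)]
      rfl
  · rw [Function.update_of_ne hib]
    have hd : k i - k b ≠ 0 := sub_ne_zero.2 fun h => hib (hk h)
    have h1 : psi k N i = psi k (Function.update N b (N b - 1)) i * g (k i - k b) := by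
      unfold psi
      have h2 : ∀ l ∈ univ.erase i, g (k i - k l) ^ N l =
          g (k i - k l) ^ (Function.update N b (N b - 1)) l * (if l = b then g (k i - k l) else 1) := by
        intro l _
        by_cases hl : l = b
        · subst hl
          rw [if_pos rfl, Function.update_self, ← pow_succ, Nat.sub_add_cancel (Nat.pos_of_ne_zero hb)]
        · rw [if_neg hl, Function.update_of_ne hl, mul_one]
      rw [Finset.prod_congr rfl h2, Finset.prod_mul_distrib, Finset.prod_ite_eq',
        if_pos (Finset.mem_erase.2 ⟨fun h => hib h.symm, Finset.mem_univ b⟩)]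
    split_ifs
    · rfl
    · congr 1
      rw [h1]
      have h3 := lin_mul_g _ hd
      show psi k (Function.update N b (N b - 1)) i * g (k i - k b) * ((C (k i - k b) + X) * τ i) = _
      calc psi k (Function.update N b (N b - 1)) i * g (k i - k b) * ((C (k i - k b) + X) * τ i)
          = psi k (Function.update N b (N b - 1)) i * (((C (k i - k b) + X) * g (k i - k b)) * τ i) := by
            ring
        _ = _ := by rw [h3, one_mul]

theorem sum_update (N : ι → ℕ) (b : ι) (hb : N b ≠ 0) :
    ∑ i, (Function.update N b (N b - 1)) i + 1 = ∑ i, N i := by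
  rw [← Finset.add_sum_erase _ N (Finset.mem_univ b),
    ← Finset.add_sum_erase _ (Function.update N b (N b - 1)) (Finset.mem_univ b),
    Function.update_self]
  have h1 : ∑ x ∈ univ.erase b, Function.update N b (N b - 1) x = ∑ x ∈ univ.erase b, N x := by
    refine Finset.sum_congr rfl fun l hl => ?_
    rw [Function.update_of_ne (Finset.ne_of_mem_erase hl)]
  rw [h1]
  omega

theorem Lam_zero (k : ι → ℚ) (N : ι → ℕ) (hN : ∑ i, N i = 0) (τ : ι → ℚ⟦X⟧) : Lam k N τ = 0 := by
  unfold Lam
  refine Finset.sum_eq_zero fun i _ => ?_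
  rw [if_pos]
  exact (Finset.sum_eq_zero_iff.1 hN) i (Finset.mem_univ i)

omit [DecidableEq ι] in
theorem exists_ne_zero (N : ι → ℕ) (hN : ∑ i, N i ≠ 0) : ∃ b, N b ≠ 0 := by
  by_contra hcon
  push Not at hcon
  exact hN (Finset.sum_eq_zero fun i _ => hcon i)

/-- all multiplicity at the single node `b` -/
theorem Lam_single (k : ι → ℚ) (N : ι → ℕ) (b : ι) (hb : N b ≠ 0) (h : ∀ i, i ≠ b → N i = 0) :
    Lam k N (fun _ => 1) = if N b = 1 then 1 else 0 := by
  unfold Lam
  rw [Finset.sum_eq_single b]
  · have h1 : psi k N b = 1 := by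
      unfold psi
      refine Finset.prod_eq_one fun l hl => ?_
      rw [h l (Finset.ne_of_mem_erase hl), pow_zero]
    rw [if_neg hb, h1, mul_one, coeff_one]
    have h2 : N b - 1 = 0 ↔ N b = 1 := by omega
    simp only [h2]
  · intro i _ hib
    rw [if_pos (h i hib)]
  · intro h; exact absurd (Finset.mem_univ b) h

theorem Lam_one_one (k : ι → ℚ) (N : ι → ℕ) (hN : ∑ i, N i = 1) : Lam k N (fun _ => 1) = 1 := by
  obtain ⟨b, hb⟩ := exists_ne_zero N (by omega)
  have h1 := Finset.add_sum_erase _ N (Finset.mem_univ b)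
  have h2 : ∀ i, i ≠ b → N i = 0 := by
    intro i hi
    have h3 : N i ≤ ∑ x ∈ univ.erase b, N x :=
      Finset.single_le_sum (f := N) (fun _ _ => Nat.zero_le _) (Finset.mem_erase.2 ⟨hi, Finset.mem_univ i⟩)
    omega
  have h4 : N b = 1 := by
    have : ∑ x ∈ univ.erase b, N x = 0 :=
      Finset.sum_eq_zero fun i hi => h2 i (Finset.ne_of_mem_erase hi)
    omega
  rw [Lam_single k N b hb h2, if_pos h4]

theorem Lam_one_zero (k : ι → ℚ) (hk : Function.Injective k) (s : ℕ) :
    ∀ N : ι → ℕ, ∑ i, N i = s + 2 → Lam k N (fun _ => 1) = 0 := by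
  induction s with
  | zero =>
    intro N hN
    by_cases hA : ∃ a b, a ≠ b ∧ N a ≠ 0 ∧ N b ≠ 0
    · obtain ⟨a, b, hab, ha, hb⟩ := hA
      have e1 := Lam_lin k hk N b hb (fun _ => 1)
      have e2 := Lam_lin k hk N a ha (fun _ => 1)
      have s1 := sum_update N b hb
      have s2 := sum_update N a ha
      rw [Lam_one_one k _ (by omega)] at e1 e2
      have h3 : (fun i : ι => (C (k i - k b) + X) * (1 : ℚ⟦X⟧)) =
          fun i => (C (k i - k a) + X) * (1 : ℚ⟦X⟧) + C (k a - k b) * 1 := by
        funext i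
        have : C (k i - k b) = C (k i - k a) + (C (k a - k b) : ℚ⟦X⟧) := by
          rw [← map_add]; congr 1; ring
        rw [this]
        ring
      rw [h3, Lam_add, e2, Lam_smul] at e1
      have hne : k a - k b ≠ 0 := sub_ne_zero.2 fun h => hab (hk h)
      have h4 : (k a - k b) * Lam k N (fun _ => 1) = 0 := by linarith
      exact (mul_eq_zero.1 h4).resolve_left hne
    · push Not at hA
      obtain ⟨b, hb⟩ := exists_ne_zero N (by omega)
      have h2 : ∀ i, i ≠ b → N i = 0 := by
        intro i hi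
        by_contra h
        exact hb (hA i b hi h)
      have h1 := Finset.add_sum_erase _ N (Finset.mem_univ b)
      have h3 : ∑ x ∈ univ.erase b, N x = 0 :=
        Finset.sum_eq_zero fun i hi => h2 i (Finset.ne_of_mem_erase hi)
      rw [Lam_single k N b hb h2, if_neg (by omega)]
  | succ s ih =>
    intro N hN
    by_cases hA : ∃ a b, a ≠ b ∧ N a ≠ 0 ∧ N b ≠ 0
    · obtain ⟨a, b, hab, ha, hb⟩ := hA
      have e1 := Lam_lin k hk N b hb (fun _ => 1)
      have e2 := Lam_lin k hk N a ha (fun _ => 1)
      have s1 := sum_update N b hb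
      have s2 := sum_update N a ha
      rw [ih _ (by omega)] at e1 e2
      have h3 : (fun i : ι => (C (k i - k b) + X) * (1 : ℚ⟦X⟧)) =
          fun i => (C (k i - k a) + X) * (1 : ℚ⟦X⟧) + C (k a - k b) * 1 := by
        funext i
        have : C (k i - k b) = C (k i - k a) + (C (k a - k b) : ℚ⟦X⟧) := by
          rw [← map_add]; congr 1; ring
        rw [this]
        ring
      rw [h3, Lam_add, e2, Lam_smul] at e1
      have hne : k a - k b ≠ 0 := sub_ne_zero.2 fun h => hab (hk h)
      have h4 : (k a - k b) * Lam k N (fun _ => 1) = 0 := by linarith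
      exact (mul_eq_zero.1 h4).resolve_left hne
    · push Not at hA
      obtain ⟨b, hb⟩ := exists_ne_zero N (by omega)
      have h2 : ∀ i, i ≠ b → N i = 0 := by
        intro i hi
        by_contra h
        exact hb (hA i b hi h)
      have h1 := Finset.add_sum_erase _ N (Finset.mem_univ b)
      have h3 : ∑ x ∈ univ.erase b, N x = 0 :=
        Finset.sum_eq_zero fun i hi => h2 i (Finset.ne_of_mem_erase hi)
      rw [Lam_single k N b hb h2, if_neg (by omega)]

noncomputable def mono (k : ι → ℚ) (ν : ℕ) (i : ι) : ℚ⟦X⟧ := (C (k i) + X) ^ ν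

theorem Lam_mono_succ (k : ι → ℚ) (hk : Function.Injective k) (N : ι → ℕ) (b : ι) (hb : N b ≠ 0)
    (ν : ℕ) : Lam k N (mono k (ν + 1)) =
      Lam k (Function.update N b (N b - 1)) (mono k ν) + k b * Lam k N (mono k ν) := by
  rw [← Lam_lin k hk N b hb, ← Lam_smul, ← Lam_add]
  congr 1
  funext i
  unfold mono
  have : C (k i) = C (k i - k b) + (C (k b) : ℚ⟦X⟧) := by
    rw [← map_add]; congr 1; ring
  rw [pow_succ']
  nth_rewrite 1 [this]
  ring

theorem Lam_mono_bound (k : ι → ℚ) (hk : Function.Injective k) (K : ℚ) (hK : ∀ i, |k i| ≤ K) (ν : ℕ) :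
    ∀ (N : ι → ℕ) (M : ℕ), ∑ i, N i = M + 1 →
      |Lam k N (mono k ν)| ≤ (ν.choose M : ℚ) * K ^ (ν - M) := by
  induction ν with
  | zero =>
    intro N M hN
    have h0 : mono k 0 = fun _ => 1 := by funext i; simp [mono]
    rw [h0]
    rcases M with _ | M
    · rw [Lam_one_one k N (by omega)]
      simp
    · rw [Lam_one_zero k hk M N (by omega)]
      simp
  | succ ν ih =>
    intro N M hN
    obtain ⟨b, hb⟩ := exists_ne_zero N (by omega)
    have hs := sum_update N b hb
    have hK0 : 0 ≤ K := (abs_nonneg _).trans (hK b)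
    rw [Lam_mono_succ k hk N b hb]
    rcases M with _ | M
    · rw [Lam_zero k _ (by omega), zero_add, abs_mul]
      have h1 := ih N 0 hN
      simp only [Nat.choose_zero_right, Nat.cast_one, one_mul, Nat.sub_zero] at h1 ⊢
      rw [pow_succ']
      exact mul_le_mul (hK b) h1 (abs_nonneg _) hK0
    · have h1 := ih (Function.update N b (N b - 1)) M (by omega)
      have h2 := ih N (M + 1) hN
      have h3 : |k b * Lam k N (mono k ν)| ≤ ((ν.choose (M + 1) : ℕ) : ℚ) * K ^ (ν - M) := by
        rw [abs_mul]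
        refine (mul_le_mul (hK b) h2 (abs_nonneg _) hK0).trans ?_
        by_cases hν : M + 1 ≤ ν
        · have e : ν - M = (ν - (M + 1)) + 1 := by omega
          rw [e, pow_succ]
          apply le_of_eq
          ring
        · rw [Nat.choose_eq_zero_of_lt (by omega)]
          simp
      refine (abs_add_le _ _).trans ?_
      have e : ν + 1 - (M + 1) = ν - M := by omega
      rw [e, Nat.choose_succ_succ]
      push_cast
      rw [add_mul]
      exact add_le_add h1 h3

end TH456.TI
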