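import Mathlib
import Pool.Agent.TH456.HN.TypeI

set_option autoImplicit false

namespace TH456.TI

open PowerSeries Finset

variable {ι : Type*} [Fintype ι] [DecidableEq ι]

theorem coeff_lin_pow (k : ℚ) (ν r : ℕ) :
    coeff r ((C k + X : ℚ⟦X⟧) ^ ν) = (ν.choose r : ℚ) * k ^ (ν - r) := by
  have h1 : ((C k + X : ℚ⟦X⟧) ^ ν) = (((Polynomial.X + Polynomial.C k) ^ ν : Polynomial ℚ) : ℚ⟦X⟧) := by
    rw [Polynomial.coe_pow, Polynomial.coe_add, Polynomial.coe_X, Polynomial.coe_C, add_comm]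
  rw [h1, Polynomial.coeff_coe, Polynomial.coeff_X_add_C_pow, mul_comm]

/-- value at `z = 1` of the `i`-th coefficient of the form with multiplicities `N` -/
noncomputable def P (k : ι → ℚ) (N : ι → ℕ) (i : ι) : ℚ :=
  ∑ r ∈ range (N i), coeff (N i - 1 - r) (psi k N i) / (r.factorial : ℚ)

theorem Lam_mono_eq (k : ι → ℚ) (N : ι → ℕ) (ν : ℕ) : Lam k N (mono k ν) =
    ∑ i, ∑ r ∈ range (N i), coeff (N i - 1 - r) (psi k N i) * ((ν.choose r : ℚ) * k i ^ (ν - r)) := by
  unfold Lam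
  refine Finset.sum_congr rfl fun i _ => ?_
  rcases hN : N i with _ | n
  · simp
  · rw [if_neg (Nat.succ_ne_zero n), Nat.add_sub_cancel, mul_comm, coeff_mul,
      Finset.Nat.sum_antidiagonal_eq_sum_range_succ (fun a b => coeff a (mono k ν i) * coeff b (psi k N i))]
    refine Finset.sum_congr rfl fun r _ => ?_
    unfold mono
    rw [coeff_lin_pow, mul_comm]

theorem hasSum_choose (k : ℝ) (r : ℕ) :
    HasSum (fun ν : ℕ => ((ν.choose r : ℝ) * k ^ (ν - r)) / (ν.factorial : ℝ))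
      (Real.exp k / (r.factorial : ℝ)) := by
  rw [← hasSum_nat_add_iff' r]
  have h0 : ∑ i ∈ range r, ((i.choose r : ℝ) * k ^ (i - r)) / (i.factorial : ℝ) = 0 := by
    refine Finset.sum_eq_zero fun i hi => ?_
    rw [Nat.choose_eq_zero_of_lt (Finset.mem_range.1 hi)]
    simp
  rw [h0, sub_zero]
  have h1 : HasSum (fun n : ℕ => k ^ n / (n.factorial : ℝ)) (Real.exp k) := by
    rw [Real.exp_eq_exp_ℝ]
    exact NormedSpace.expSeries_div_hasSum_exp k
  have h2 := h1.div_const (r.factorial : ℝ)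
  have hfun : (fun n : ℕ => (((n + r).choose r : ℝ) * k ^ (n + r - r)) / ((n + r).factorial : ℝ)) =
      fun n : ℕ => k ^ n / (n.factorial : ℝ) / (r.factorial : ℝ) := ?_
  · rw [hfun]
    exact h2
  funext n
  rw [Nat.add_sub_cancel]
  have h3 : (n + r).choose r * (r.factorial * n.factorial) = (n + r).factorial := by
    have h4 := Nat.choose_mul_factorial_mul_factorial (Nat.le_add_left r n)
    rw [Nat.add_sub_cancel] at h4
    rw [← mul_assoc]
    exact h4
  have h5 : (((n + r).choose r : ℕ) : ℝ) * ((r.factorial : ℝ) * (n.factorial : ℝ)) =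
      ((n + r).factorial : ℝ) := by
    exact_mod_cast h3
  have h6 : (0 : ℝ) < r.factorial := by exact_mod_cast Nat.factorial_pos r
  have h7 : (0 : ℝ) < n.factorial := by exact_mod_cast Nat.factorial_pos n
  have h8 : (0 : ℝ) < ((n + r).choose r : ℕ) := by
    exact_mod_cast Nat.choose_pos (Nat.le_add_left r n)
  rw [← h5]
  field_simp

theorem hasSum_Lam (k : ι → ℚ) (N : ι → ℕ) :
    HasSum (fun ν : ℕ => ((Lam k N (mono k ν) : ℚ) : ℝ) / (ν.factorial : ℝ))
      (∑ i, (P k N i : ℝ) * Real.exp (k i)) := by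
  have h1 : HasSum (fun ν : ℕ => ∑ i, ∑ r ∈ range (N i),
      ((coeff (N i - 1 - r) (psi k N i) : ℚ) : ℝ) *
        (((ν.choose r : ℝ) * (k i : ℝ) ^ (ν - r)) / (ν.factorial : ℝ)))
      (∑ i, ∑ r ∈ range (N i), ((coeff (N i - 1 - r) (psi k N i) : ℚ) : ℝ) *
        (Real.exp (k i) / (r.factorial : ℝ))) := by
    refine hasSum_sum fun i _ => hasSum_sum fun r _ => ?_
    exact (hasSum_choose (k i : ℝ) r).mul_left _
  convert h1 using 1
  · funext ν
    rw [Lam_mono_eq]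
    push_cast
    rw [Finset.sum_div]
    refine Finset.sum_congr rfl fun i _ => ?_
    rw [Finset.sum_div]
    refine Finset.sum_congr rfl fun r _ => ?_
    ring
  · refine Finset.sum_congr rfl fun i _ => ?_
    unfold P
    push_cast
    rw [Finset.sum_mul]
    refine Finset.sum_congr rfl fun r _ => ?_
    ring

theorem form_bound (k : ι → ℚ) (hk : Function.Injective k) (K : ℚ) (hK : ∀ i, |k i| ≤ K)
    (N : ι → ℕ) (M : ℕ) (hN : ∑ i, N i = M + 1) :
    |∑ i, (P k N i : ℝ) * Real.exp (k i)| ≤ Real.exp K / (M.factorial : ℝ) := by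
  have h1 := hasSum_Lam k N
  have h2 := hasSum_choose (K : ℝ) M
  have h3 : ∀ ν : ℕ, |((Lam k N (mono k ν) : ℚ) : ℝ) / (ν.factorial : ℝ)| ≤
      ((ν.choose M : ℝ) * (K : ℝ) ^ (ν - M)) / (ν.factorial : ℝ) := by
    intro ν
    have h4 : (0 : ℝ) < ν.factorial := by exact_mod_cast Nat.factorial_pos ν
    rw [abs_div, abs_of_pos h4]
    apply div_le_div_of_nonneg_right _ h4.le
    have h5 := Lam_mono_bound k hk K hK ν N M hN
    have h6 : ((|Lam k N (mono k ν)| : ℚ) : ℝ) ≤ (((ν.choose M : ℚ) * K ^ (ν - M) : ℚ) : ℝ) := by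
      exact_mod_cast h5
    push_cast at h6
    exact h6
  rw [abs_le]
  constructor
  · have h4 := hasSum_le (fun ν => (abs_le.1 (h3 ν)).1) h2.neg h1
    exact h4
  · exact hasSum_le (fun ν => (abs_le.1 (h3 ν)).2) h1 h2

/-! ### denominators -/

/-- `W^s · coeff_s` is an integer for all `s` -/
def IsInt (W : ℚ) (φ : ℚ⟦X⟧) : Prop := ∀ s, ∃ z : ℤ, W ^ s * coeff s φ = z

theorem IsInt.one (W : ℚ) : IsInt W 1 := by
  intro s
  rw [coeff_one]
  split_ifs with h
  · subst h; exact ⟨1, by simp⟩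
  · exact ⟨0, by simp⟩

theorem IsInt.mul {W : ℚ} {φ χ : ℚ⟦X⟧} (h1 : IsInt W φ) (h2 : IsInt W χ) : IsInt W (φ * χ) := by
  intro s
  choose a ha using h1
  choose b hb using h2
  refine ⟨∑ p ∈ Finset.HasAntidiagonal.antidiagonal s, a p.1 * b p.2, ?_⟩
  rw [coeff_mul, Finset.mul_sum]
  push_cast
  refine Finset.sum_congr rfl fun p hp => ?_
  rw [← ha, ← hb, ← Finset.HasAntidiagonal.mem_antidiagonal.1 hp, pow_add]
  ring

theorem IsInt.pow {W : ℚ} {φ : ℚ⟦X⟧} (h : IsInt W φ) (n : ℕ) : IsInt W (φ ^ n) := by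
  induction n with
  | zero => rw [pow_zero]; exact IsInt.one W
  | succ n ih => rw [pow_succ]; exact ih.mul h

theorem IsInt.prod {W : ℚ} {α : Type*} (s : Finset α) (f : α → ℚ⟦X⟧) (h : ∀ a ∈ s, IsInt W (f a)) :
    IsInt W (∏ a ∈ s, f a) := by
  classical
  induction s using Finset.induction_on with
  | empty => rw [Finset.prod_empty]; exact IsInt.one W
  | insert a s ha ih =>
    rw [Finset.prod_insert ha]
    exact (h a (Finset.mem_insert_self _ _)).mul (ih fun i hi => h i (Finset.mem_insert_of_mem hi))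

theorem IsInt.g {W d : ℤ} (hd : d ≠ 0) (hdW : d ∣ W) : IsInt (W : ℚ) (C (d : ℚ) * g (d : ℚ)) := by
  intro s
  obtain ⟨q, hq⟩ := hdW
  refine ⟨(-1) ^ s * q ^ s, ?_⟩
  have hd' : (d : ℚ) ≠ 0 := by exact_mod_cast hd
  rw [coeff_C_mul, TH456.TI.g, coeff_mk, hq]
  push_cast
  field_simp
  ring

/-- the coefficients of `psi` have denominators dividing `(∏ d_l^{N_l}) W^s` -/
theorem psi_int (k : ι → ℤ) (hk : Function.Injective k) (W : ℤ)
    (hW : ∀ i l, i ≠ l → (k i - k l) ∣ W) (N : ι → ℕ) (i : ι) :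
    IsInt (W : ℚ) (C (∏ l ∈ univ.erase i, ((k i - k l : ℤ) : ℚ) ^ N l) * psi (fun i => (k i : ℚ)) N i) := by
  have h1 : (C (∏ l ∈ univ.erase i, ((k i - k l : ℤ) : ℚ) ^ N l) * psi (fun i => (k i : ℚ)) N i) =
      ∏ l ∈ univ.erase i, (C ((k i - k l : ℤ) : ℚ) * g ((k i - k l : ℤ) : ℚ)) ^ N l := by
    unfold psi
    rw [map_prod, ← Finset.prod_mul_distrib]
    refine Finset.prod_congr rfl fun l _ => ?_
    rw [mul_pow, map_pow]
    push_cast
    rfl
  rw [h1]
  refine IsInt.prod _ _ fun l hl => ?_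
  refine IsInt.pow (IsInt.g ?_ ?_) _
  · exact sub_ne_zero.2 fun h => (Finset.ne_of_mem_erase hl) (hk h).symm
  · exact hW i l (Finset.ne_of_mem_erase hl).symm

end TH456.TI
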