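import Mathlib
import Pool.Agent.TH456.HN.TypeI2

set_option autoImplicit false

namespace TH456.TI

open PowerSeries Finset

theorem prod_le_factorial_dvd {α : Type*} [DecidableEq α] (s : Finset α) (f : α → ℕ) (a : ℕ)
    (hinj : Set.InjOn f s) (h1 : ∀ x ∈ s, 1 ≤ f x) (h2 : ∀ x ∈ s, f x ≤ a) :
    ∏ x ∈ s, f x ∣ a.factorial := by
  rw [← Finset.prod_Ico_id_eq_factorial]
  have h3 : ∏ x ∈ s, f x = ∏ y ∈ s.image f, y := by
    rw [Finset.prod_image hinj]
  rw [h3]
  apply Finset.prod_dvd_prod_of_subset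
  intro y hy
  rw [Finset.mem_image] at hy
  obtain ⟨x, hx, rfl⟩ := hy
  exact Finset.mem_Ico.2 ⟨h1 x hx, Nat.lt_succ_of_le (h2 x hx)⟩

theorem prod_diff_dvd {m : ℕ} (K : ℕ) (k : Fin (m + 1) → ℤ) (hinj : Function.Injective k)
    (h0 : ∀ i, 0 ≤ k i) (hK : ∀ i, k i ≤ K) (i : Fin (m + 1)) :
    ∏ l ∈ univ.erase i, (k i - k l) ∣ ((K.factorial : ℕ) : ℤ) := by
  obtain ⟨a, ha⟩ : ∃ a : ℕ, k i = a := ⟨(k i).toNat, (Int.toNat_of_nonneg (h0 i)).symm⟩
  have haK : a ≤ K := by have := hK i; rw [ha] at this; exact_mod_cast this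
  rw [← Finset.prod_filter_mul_prod_filter_not (univ.erase i) (fun l => k l < k i)]
  have hne : ∀ l ∈ univ.erase i, k l ≠ k i := fun l hl h => (Finset.ne_of_mem_erase hl) (hinj h)
  have hA : ∏ l ∈ (univ.erase i).filter (fun l => k l < k i), (k i - k l) ∣ ((a.factorial : ℕ) : ℤ) := by
    have h1 : ∏ l ∈ (univ.erase i).filter (fun l => k l < k i), (k i - k l) =
        ((∏ l ∈ (univ.erase i).filter (fun l => k l < k i), (k i - k l).toNat : ℕ) : ℤ) := by
      rw [Nat.cast_prod]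
      refine Finset.prod_congr rfl fun l hl => ?_
      rw [Int.toNat_of_nonneg]
      have := (Finset.mem_filter.1 hl).2
      linarith
    rw [h1]
    apply Int.natCast_dvd_natCast.2
    apply prod_le_factorial_dvd
    · intro x hx y hy hxy
      have hx' := (Finset.mem_filter.1 (Finset.mem_coe.1 hx)).2
      have hy' := (Finset.mem_filter.1 (Finset.mem_coe.1 hy)).2
      apply hinj
      simp only at hxy
      omega
    · intro x hx
      have := (Finset.mem_filter.1 hx).2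
      omega
    · intro x hx
      have := h0 x
      omega
  have hB : ∏ l ∈ (univ.erase i).filter (fun l => ¬ k l < k i), (k i - k l) ∣
      (((K - a).factorial : ℕ) : ℤ) := by
    have h1 : ∏ l ∈ (univ.erase i).filter (fun l => ¬ k l < k i), (k i - k l) =
        (-1) ^ ((univ.erase i).filter (fun l => ¬ k l < k i)).card *
          ((∏ l ∈ (univ.erase i).filter (fun l => ¬ k l < k i), (k l - k i).toNat : ℕ) : ℤ) := by
      rw [Nat.cast_prod, ← Finset.prod_const, ← Finset.prod_mul_distrib]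
      refine Finset.prod_congr rfl fun l hl => ?_
      rw [Int.toNat_of_nonneg]
      · ring
      · have := (Finset.mem_filter.1 hl).2
        omega
    rw [h1]
    have hu : IsUnit ((-1 : ℤ) ^ ((univ.erase i).filter (fun l => ¬ k l < k i)).card) :=
      (isUnit_one.neg).pow _
    rw [hu.mul_left_dvd]
    apply Int.natCast_dvd_natCast.2
    apply prod_le_factorial_dvd
    · intro x hx y hy hxy
      have hx' := (Finset.mem_filter.1 (Finset.mem_coe.1 hx)).2
      have hy' := (Finset.mem_filter.1 (Finset.mem_coe.1 hy)).2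
      apply hinj
      simp only at hxy
      omega
    · intro x hx
      have h2 := (Finset.mem_filter.1 hx).2
      have h3 := hne x (Finset.mem_filter.1 hx).1
      omega
    · intro x hx
      have := hK x
      omega
  have h3 := mul_dvd_mul hA hB
  refine h3.trans ?_
  have h4 := Nat.factorial_mul_factorial_dvd_factorial_add a (K - a)
  rw [Nat.add_sub_cancel' haK] at h4
  exact_mod_cast h4

theorem diff_dvd {m : ℕ} (K : ℕ) (k : Fin (m + 1) → ℤ) (hinj : Function.Injective k)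
    (h0 : ∀ i, 0 ≤ k i) (hK : ∀ i, k i ≤ K) (i l : Fin (m + 1)) (hil : i ≠ l) :
    (k i - k l) ∣ ((K.factorial : ℕ) : ℤ) :=
  (Finset.dvd_prod_of_mem (fun l => k i - k l) (Finset.mem_erase.2 ⟨hil.symm, Finset.mem_univ l⟩)).trans
    (prod_diff_dvd K k hinj h0 hK i)

/-- multiplicities `N + [l = j]` -/
def Nj {m : ℕ} (N : ℕ) (j : Fin (m + 1)) (l : Fin (m + 1)) : ℕ := N + if l = j then 1 else 0

theorem sum_Nj {m : ℕ} (N : ℕ) (j : Fin (m + 1)) : ∑ l, Nj N j l = (m + 1) * N + 1 := by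
  unfold Nj
  rw [Finset.sum_add_distrib]
  simp

theorem Nj_le {m : ℕ} (N : ℕ) (j l : Fin (m + 1)) : Nj N j l ≤ N + 1 := by
  unfold Nj; split_ifs <;> omega

theorem coeff_int {m : ℕ} (K N : ℕ) (k : Fin (m + 1) → ℤ) (hinj : Function.Injective k)
    (h0 : ∀ i, 0 ≤ k i) (hK : ∀ i, k i ≤ K) (j i : Fin (m + 1)) (s : ℕ) (hs : s ≤ N) :
    ∃ z : ℤ, ((K.factorial : ℕ) : ℚ) ^ (2 * N + 1) * coeff s (psi (fun i => (k i : ℚ)) (Nj N j) i) = z := by
  obtain ⟨z, hz⟩ := psi_int k hinj ((K.factorial : ℕ) : ℤ)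
    (fun i l hil => diff_dvd K k hinj h0 hK i l hil) (Nj N j) i s
  have hdvd : ∏ l ∈ univ.erase i, (k i - k l) ^ (Nj N j l) ∣ (((K.factorial : ℕ) : ℤ)) ^ (N + 1) := by
    have h1 : ∏ l ∈ univ.erase i, (k i - k l) ^ (Nj N j l) ∣ ∏ l ∈ univ.erase i, (k i - k l) ^ (N + 1) :=
      Finset.prod_dvd_prod_of_dvd _ _ fun l _ => pow_dvd_pow _ (Nj_le N j l)
    rw [Finset.prod_pow] at h1
    exact h1.trans (pow_dvd_pow_of_dvd (prod_diff_dvd K k hinj h0 hK i) _)
  obtain ⟨q, hq⟩ := hdvd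
  refine ⟨((K.factorial : ℕ) : ℤ) ^ (N - s) * q * z, ?_⟩
  rw [coeff_C_mul] at hz
  have hq' : ((K.factorial : ℕ) : ℚ) ^ (N + 1) =
      (∏ l ∈ univ.erase i, ((k i - k l : ℤ) : ℚ) ^ (Nj N j l)) * q := by
    have h1 : (((((K.factorial : ℕ) : ℤ)) ^ (N + 1) : ℤ) : ℚ) =
      (((∏ l ∈ univ.erase i, (k i - k l) ^ (Nj N j l)) * q : ℤ) : ℚ) := by rw [hq]
    push_cast at h1 ⊢
    exact h1
  have e : 2 * N + 1 = (N - s) + s + (N + 1) := by omega
  rw [e, pow_add, pow_add, hq']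
  push_cast at hz ⊢
  rw [← hz]
  ring

/-- the terms of the form, multiplied by `N! (K!)^{2N+1}` -/
theorem term_int {m : ℕ} (K N : ℕ) (k : Fin (m + 1) → ℤ) (hinj : Function.Injective k)
    (h0 : ∀ i, 0 ≤ k i) (hK : ∀ i, k i ≤ K) (j i : Fin (m + 1)) (l : ℕ) (hlN : l ∣ N) (r : ℕ)
    (hr : r < N) (s : ℕ) (hs : s ≤ N) :
    ∃ z : ℤ, (N.factorial : ℚ) * ((K.factorial : ℕ) : ℚ) ^ (2 * N + 1) *
      (coeff s (psi (fun i => (k i : ℚ)) (Nj N j) i) / (r.factorial : ℚ)) = (l : ℚ) * z := by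
  obtain ⟨z, hz⟩ := coeff_int K N k hinj h0 hK j i s hs
  obtain ⟨t, ht⟩ := Nat.factorial_dvd_factorial (Nat.le_sub_one_of_lt hr)
  obtain ⟨q, hq⟩ := hlN
  have h1 : N.factorial = N * (r.factorial * t) := by
    rw [← ht]
    exact (Nat.mul_factorial_pred (by omega)).symm
  have h2 : (N.factorial : ℚ) = l * q * (r.factorial * t) := by
    have h3 : N.factorial = (l * q) * (r.factorial * t) := by rw [← hq]; exact h1
    rw [h3]; push_cast; ring
  have h3 : (r.factorial : ℚ) ≠ 0 := by exact_mod_cast Nat.factorial_ne_zero r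
  refine ⟨q * t * z, ?_⟩
  push_cast
  rw [h2, ← hz]
  field_simp

theorem coeff_zero_psi {m : ℕ} (N : ℕ) (k : Fin (m + 1) → ℤ) (hinj : Function.Injective k)
    (j i : Fin (m + 1)) :
    (∏ l ∈ univ.erase i, ((k i - k l : ℤ) : ℚ) ^ (Nj N j l)) *
      coeff 0 (psi (fun i => (k i : ℚ)) (Nj N j) i) = 1 := by
  unfold psi
  rw [coeff_zero_eq_constantCoeff_apply, map_prod, ← Finset.prod_mul_distrib]
  refine Finset.prod_eq_one fun l hl => ?_
  have hne : ((k i - k l : ℤ) : ℚ) ≠ 0 := by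
    exact_mod_cast sub_ne_zero.2 fun h => (Finset.ne_of_mem_erase hl) (hinj h).symm
  rw [map_pow, ← mul_pow]
  have h1 : ((k i - k l : ℤ) : ℚ) * constantCoeff (g ((k i : ℚ) - (k l : ℚ))) = 1 := by
    rw [← coeff_zero_eq_constantCoeff_apply, g, coeff_mk]
    push_cast at hne ⊢
    field_simp
  rw [h1, one_pow]

theorem exists_matrix {m : ℕ} (K N p : ℕ) (hp : p.Prime) (hKp : K < p) (hpN : p ∣ N)
    (k : Fin (m + 1) → ℤ) (hinj : Function.Injective k)
    (h0 : ∀ i, 0 ≤ k i) (hK : ∀ i, k i ≤ K) :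
    ∃ B : Matrix (Fin (m + 1)) (Fin (m + 1)) ℤ, B.det ≠ 0 ∧
      ∀ j i, ((B j i : ℤ) : ℚ) = (N.factorial : ℚ) * ((K.factorial : ℕ) : ℚ) ^ (2 * N + 1) *
        P (fun i => (k i : ℚ)) (Nj N j) i := by
  have key : ∀ j i, ∃ b : ℤ, ((b : ℤ) : ℚ) = (N.factorial : ℚ) * ((K.factorial : ℕ) : ℚ) ^ (2 * N + 1) *
        P (fun i => (k i : ℚ)) (Nj N j) i ∧ (j ≠ i → (p : ℤ) ∣ b) ∧ (j = i → ¬ (p : ℤ) ∣ b) := by
    intro j i
    by_cases hji : j = i
    · subst hji
      have hN1 : Nj N j j = N + 1 := by simp [Nj]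
      have hterm : ∀ r : ℕ, ∃ z : ℤ, r < N → (N.factorial : ℚ) * ((K.factorial : ℕ) : ℚ) ^ (2 * N + 1) *
          (coeff (N - r) (psi (fun i => (k i : ℚ)) (Nj N j) j) / (r.factorial : ℚ)) = (p : ℚ) * z := by
        intro r
        by_cases hr : r < N
        · obtain ⟨z, hz⟩ := term_int K N k hinj h0 hK j j p hpN r hr (N - r) (Nat.sub_le _ _)
          exact ⟨z, fun _ => hz⟩
        · exact ⟨0, fun h => absurd h hr⟩
      choose z hz using hterm
      obtain ⟨w, hw⟩ := coeff_int K N k hinj h0 hK j j 0 (Nat.zero_le _)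
      refine ⟨∑ r ∈ range N, (p : ℤ) * z r + w, ?_, fun h => absurd rfl h, fun _ hdvd => ?_⟩
      · unfold P
        rw [hN1, Finset.sum_range_succ, mul_add, Finset.mul_sum]
        push_cast
        congr 1
        · refine Finset.sum_congr rfl fun r hr => ?_
          rw [← hz r (Finset.mem_range.1 hr)]
        · rw [← hw]
          rw [Nat.sub_self]
          have h3 : (N.factorial : ℚ) ≠ 0 := by exact_mod_cast Nat.factorial_ne_zero N
          field_simp
      · have h1 : (p : ℤ) ∣ ∑ r ∈ range N, (p : ℤ) * z r :=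
          Finset.dvd_sum fun r _ => Dvd.intro _ rfl
        have h2 : (p : ℤ) ∣ w := (dvd_add_right h1).1 hdvd
        have h3 := coeff_zero_psi N k hinj j j
        have h4 : (w : ℤ) * (∏ l ∈ univ.erase j, (k j - k l) ^ (Nj N j l)) =
            ((K.factorial : ℕ) : ℤ) ^ (2 * N + 1) := by
          have h5 : ((w : ℤ) : ℚ) * (∏ l ∈ univ.erase j, ((k j - k l : ℤ) : ℚ) ^ (Nj N j l)) =
              ((K.factorial : ℕ) : ℚ) ^ (2 * N + 1) := by
            rw [← hw, mul_assoc, mul_comm (coeff 0 _), h3, mul_one]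
          have h6 : (((w : ℤ) * (∏ l ∈ univ.erase j, (k j - k l) ^ (Nj N j l)) : ℤ) : ℚ) =
            ((((K.factorial : ℕ) : ℤ) ^ (2 * N + 1) : ℤ) : ℚ) := by
            push_cast at h5 ⊢
            exact h5
          exact_mod_cast h6
        have h5 : (p : ℤ) ∣ ((K.factorial : ℕ) : ℤ) ^ (2 * N + 1) := by
          rw [← h4]
          exact Dvd.dvd.mul_right h2 _
        have h6 : (p : ℤ) ∣ ((K.factorial : ℕ) : ℤ) :=
          Prime.dvd_of_dvd_pow (Nat.prime_iff_prime_int.mp hp) h5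
        have h7 : p ∣ K.factorial := by exact_mod_cast h6
        have h8 := (Nat.Prime.dvd_factorial hp).1 h7
        omega
    · have hN1 : Nj N j i = N := by
        unfold Nj; rw [if_neg (fun h => hji h.symm)]; rfl
      have hterm : ∀ r : ℕ, ∃ z : ℤ, r < N → (N.factorial : ℚ) * ((K.factorial : ℕ) : ℚ) ^ (2 * N + 1) *
          (coeff (N - 1 - r) (psi (fun i => (k i : ℚ)) (Nj N j) i) / (r.factorial : ℚ)) = (p : ℚ) * z := by
        intro r
        by_cases hr : r < N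
        · obtain ⟨z, hz⟩ := term_int K N k hinj h0 hK j i p hpN r hr (N - 1 - r) (by omega)
          exact ⟨z, fun _ => hz⟩
        · exact ⟨0, fun h => absurd h hr⟩
      choose z hz using hterm
      refine ⟨∑ r ∈ range N, (p : ℤ) * z r, ?_, fun _ => Finset.dvd_sum fun r _ => Dvd.intro _ rfl,
        fun h => absurd h hji⟩
      unfold P
      rw [hN1, Finset.mul_sum]
      push_cast
      refine Finset.sum_congr rfl fun r hr => ?_
      rw [← hz r (Finset.mem_range.1 hr)]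
  choose B hB using key
  refine ⟨B, MahlerExp.det_ne_of_prime m B p hp (fun i j hij => (hB i j).2.1 hij)
    (fun i => (hB i i).2.2 rfl), fun j i => (hB j i).1⟩

/-! ### size -/

def Dom (φ Φ : ℚ⟦X⟧) : Prop := ∀ s, |coeff s φ| ≤ coeff s Φ

theorem Dom.mul {φ Φ χ Χ : ℚ⟦X⟧} (h1 : Dom φ Φ) (h2 : Dom χ Χ) : Dom (φ * χ) (Φ * Χ) := by
  intro s
  rw [coeff_mul, coeff_mul]
  refine (Finset.abs_sum_le_sum_abs _ _).trans (Finset.sum_le_sum fun x _ => ?_)
  rw [abs_mul]
  exact mul_le_mul (h1 _) (h2 _) (abs_nonneg _) ((abs_nonneg _).trans (h1 _))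

theorem Dom.one : Dom 1 1 := by
  intro s
  rw [coeff_one]
  split_ifs <;> simp

theorem Dom.pow {φ Φ : ℚ⟦X⟧} (h : Dom φ Φ) (n : ℕ) : Dom (φ ^ n) (Φ ^ n) := by
  induction n with
  | zero => simpa using Dom.one
  | succ n ih => rw [pow_succ, pow_succ]; exact ih.mul h

theorem Dom.prod {α : Type*} (s : Finset α) (F G : α → ℚ⟦X⟧) (h : ∀ i ∈ s, Dom (F i) (G i)) :
    Dom (∏ i ∈ s, F i) (∏ i ∈ s, G i) := by
  classical
  induction s using Finset.induction_on with
  | empty => simpa using Dom.one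
  | insert a s ha ih =>
    rw [Finset.prod_insert ha, Finset.prod_insert ha]
    exact (h a (Finset.mem_insert_self _ _)).mul (ih fun i hi => h i (Finset.mem_insert_of_mem hi))

theorem Dom.g (d : ℤ) (hd : d ≠ 0) : Dom (g (d : ℚ)) (PowerSeries.mk 1) := by
  intro s
  rw [TH456.TI.g, coeff_mk, coeff_mk, abs_div, abs_pow, abs_neg, abs_one, one_pow, abs_pow]
  have h1 : (1 : ℚ) ≤ |(d : ℚ)| := by
    rw [← Int.cast_abs]
    exact_mod_cast Int.one_le_abs hd
  simp only [Pi.one_apply]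
  rw [div_le_one (by positivity)]
  exact one_le_pow₀ h1

theorem coeff_bound {m : ℕ} (N : ℕ) (k : Fin (m + 1) → ℤ) (hinj : Function.Injective k)
    (j i : Fin (m + 1)) (s : ℕ) (hs : s ≤ N) :
    |coeff s (psi (fun i => (k i : ℚ)) (Nj N j) i)| ≤ 2 ^ ((m + 1) * N + 1) := by
  obtain ⟨q, hq⟩ : ∃ q, q = ∑ l ∈ univ.erase i, Nj N j l := ⟨_, rfl⟩
  have hq1 : q ≤ m * N + 1 := by
    have h1 := Finset.add_sum_erase univ (Nj N j) (Finset.mem_univ i)
    rw [sum_Nj] at h1
    have h2 : N ≤ Nj N j i := by unfold Nj; omega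
    have h3 : (m + 1) * N = m * N + N := by ring
    omega
  have hD : Dom (psi (fun i => (k i : ℚ)) (Nj N j) i) ((PowerSeries.mk 1) ^ q) := by
    unfold psi
    rw [hq, ← Finset.prod_pow_eq_pow_sum]
    refine Dom.prod _ _ _ fun l hl => ?_
    have hne : k i - k l ≠ 0 := sub_ne_zero.2 fun h => (Finset.ne_of_mem_erase hl) (hinj h).symm
    have h1 := (Dom.g (k i - k l) hne).pow (Nj N j l)
    push_cast at h1
    exact h1
  refine (hD s).trans ?_
  have h2 : ((2 : ℚ) ^ (q + s)) ≤ 2 ^ ((m + 1) * N + 1) := by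
    apply pow_le_pow_right₀ (by norm_num)
    have h3 : (m + 1) * N = m * N + N := by ring
    omega
  refine le_trans ?_ h2
  rcases q with _ | q
  · rw [pow_zero, coeff_one]
    split_ifs
    · exact one_le_pow₀ (by norm_num)
    · positivity
  · rw [mk_one_pow_eq_mk_choose_add, coeff_mk]
    have h4 : (q + s).choose q ≤ 2 ^ (q + s) := Nat.choose_le_two_pow _ _
    have h5 : (((q + s).choose q : ℕ) : ℚ) ≤ ((2 ^ (q + s) : ℕ) : ℚ) := by exact_mod_cast h4
    refine h5.trans ?_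
    push_cast
    apply pow_le_pow_right₀ (by norm_num)
    omega

theorem P_bound {m : ℕ} (N : ℕ) (k : Fin (m + 1) → ℤ) (hinj : Function.Injective k)
    (j i : Fin (m + 1)) :
    |(P (fun i => (k i : ℚ)) (Nj N j) i : ℝ)| ≤ 3 * 2 ^ ((m + 1) * N + 1) := by
  unfold P
  push_cast
  have h1 : ∀ r ∈ range (Nj N j i),
      |((coeff (Nj N j i - 1 - r) (psi (fun i => (k i : ℚ)) (Nj N j) i) : ℚ) : ℝ) / (r.factorial : ℝ)| ≤
        2 ^ ((m + 1) * N + 1) * ((1 : ℝ) ^ r / (r.factorial : ℝ)) := by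
    intro r _
    have h2 : (0 : ℝ) < r.factorial := by exact_mod_cast Nat.factorial_pos r
    rw [abs_div, abs_of_pos h2, one_pow, mul_one_div]
    apply div_le_div_of_nonneg_right _ h2.le
    have h3 := coeff_bound N k hinj j i (Nj N j i - 1 - r) (by have := Nj_le N j i; omega)
    have h4 : ((|coeff (Nj N j i - 1 - r) (psi (fun i => (k i : ℚ)) (Nj N j) i)| : ℚ) : ℝ) ≤
      (((2 : ℚ) ^ ((m + 1) * N + 1) : ℚ) : ℝ) := by exact_mod_cast h3
    push_cast at h4
    exact h4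
  refine (Finset.abs_sum_le_sum_abs _ _).trans ((Finset.sum_le_sum h1).trans ?_)
  rw [← Finset.mul_sum]
  have h2 := Real.sum_le_exp_of_nonneg (zero_le_one) (Nj N j i)
  have h3 := Real.exp_one_lt_d9
  have h4 : (0 : ℝ) < 2 ^ ((m + 1) * N + 1) := by positivity
  nlinarith

/-- The key inequality: integers `q_i` close to `x e^{k_i}`, not all zero. -/
theorem key3 {m : ℕ} (K N p : ℕ) (hp : p.Prime) (hKp : K < p) (hpN : p ∣ N)
    (k : Fin (m + 1) → ℤ) (hinj : Function.Injective k)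
    (h0 : ∀ i, 0 ≤ k i) (hK : ∀ i, k i ≤ K) (q : Fin (m + 1) → ℤ) (hq : q ≠ 0) (x δ : ℝ)
    (hδ : ∀ i, |x * Real.exp (k i) - q i| ≤ δ) :
    1 ≤ |x| * ((N.factorial : ℝ) * (K.factorial : ℝ) ^ (2 * N + 1)) *
        (Real.exp K / (((m + 1) * N).factorial : ℝ)) +
      (m + 1) * (3 * 2 ^ ((m + 1) * N + 1) * ((N.factorial : ℝ) * (K.factorial : ℝ) ^ (2 * N + 1))) * δ := by
  obtain ⟨B, hB, hBe⟩ := exists_matrix K N p hp hKp hpN k hinj h0 hK
  have hmv : B.mulVec q ≠ 0 := by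
    intro h
    exact hq (Matrix.eq_zero_of_mulVec_eq_zero hB h)
  obtain ⟨j, hj⟩ : ∃ j, B.mulVec q j ≠ 0 := by
    by_contra hcon
    push Not at hcon
    exact hmv (funext hcon)
  have h1 : (1 : ℝ) ≤ |((B.mulVec q j : ℤ) : ℝ)| := by
    rw [← Int.cast_abs]
    exact_mod_cast Int.one_le_abs hj
  refine h1.trans ?_
  obtain ⟨G, hG⟩ : ∃ G : ℝ, G = (N.factorial : ℝ) * (K.factorial : ℝ) ^ (2 * N + 1) := ⟨_, rfl⟩
  have hG0 : 0 < G := by
    rw [hG]
    have : (0 : ℝ) < N.factorial := by exact_mod_cast Nat.factorial_pos N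
    have : (0 : ℝ) < K.factorial := by exact_mod_cast Nat.factorial_pos K
    positivity
  have hBr : ∀ i, (B j i : ℝ) = G * (P (fun i => (k i : ℚ)) (Nj N j) i : ℝ) := by
    intro i
    have h2 : (((B j i : ℤ) : ℚ) : ℝ) = (((N.factorial : ℚ) * ((K.factorial : ℕ) : ℚ) ^ (2 * N + 1) *
        P (fun i => (k i : ℚ)) (Nj N j) i : ℚ) : ℝ) := by rw [hBe j i]
    push_cast at h2
    rw [h2, hG]
  have h2 : ((B.mulVec q j : ℤ) : ℝ) = x * (G * ∑ i, (P (fun i => (k i : ℚ)) (Nj N j) i : ℝ) *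
      Real.exp ((k i : ℚ) : ℝ)) - ∑ i, (B j i : ℝ) * (x * Real.exp (k i) - q i) := by
    rw [Matrix.mulVec, dotProduct, Finset.mul_sum, Finset.mul_sum, ← Finset.sum_sub_distrib]
    push_cast
    refine Finset.sum_congr rfl fun i _ => ?_
    rw [hBr i]
    ring
  have hδ0 : 0 ≤ δ := (abs_nonneg _).trans (hδ 0)
  have h3 := form_bound (fun i => (k i : ℚ)) (fun a b hab => hinj (by
      have h : (k a : ℚ) = (k b : ℚ) := hab
      exact_mod_cast h)) (K : ℚ)
    (fun i => by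
      rw [abs_of_nonneg (by exact_mod_cast h0 i)]
      exact_mod_cast hK i) (Nj N j) ((m + 1) * N) (sum_Nj N j)
  rw [h2, ← hG]
  refine (abs_sub _ _).trans (add_le_add ?_ ?_)
  · rw [abs_mul, abs_mul, abs_of_pos hG0, mul_assoc]
    apply mul_le_mul_of_nonneg_left _ (abs_nonneg x)
    apply mul_le_mul_of_nonneg_left _ hG0.le
    push_cast at h3 ⊢
    exact h3
  · refine (Finset.abs_sum_le_sum_abs _ _).trans ?_
    have h4 : ∀ i ∈ (univ : Finset (Fin (m + 1))), |(B j i : ℝ) * (x * Real.exp (k i) - q i)| ≤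
        (3 * 2 ^ ((m + 1) * N + 1) * G) * δ := by
      intro i _
      rw [abs_mul]
      apply mul_le_mul _ (hδ i) (abs_nonneg _) (by positivity)
      rw [hBr i, abs_mul, abs_of_pos hG0, mul_comm]
      exact mul_le_mul_of_nonneg_right (P_bound N k hinj j i) hG0.le
    refine (Finset.sum_le_sum h4).trans (le_of_eq ?_)
    rw [Finset.sum_const, Finset.card_univ, Fintype.card_fin, nsmul_eq_mul]
    push_cast
    ring

end TH456.TI
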