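import Mathlib
import Pool.Agent.TH456.HN.TypeI3

set_option autoImplicit false

namespace TH456.TI

open Finset Filter

/-- the numerical estimates behind `window3` -/
theorem numbers (ξ : ℝ) (hξ : ξ ≠ 0) : ∃ n₀ : ℕ, ∀ n : ℕ, n₀ ≤ n → ∀ m K p : ℕ, 8 ≤ m → m ≤ K →
    (K : ℝ) * Real.log K ≤ Real.log n → 1 ≤ p → p ≤ 2 * K → ∃ N : ℕ, p ∣ N ∧
      |ξ * Real.exp n| * ((N.factorial : ℝ) * (K.factorial : ℝ) ^ (2 * N + 1)) *
        (Real.exp K / (((m + 1) * N).factorial : ℝ)) +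
      (m + 1) * (3 * 2 ^ ((m + 1) * N + 1) * ((N.factorial : ℝ) * (K.factorial : ℝ) ^ (2 * N + 1))) *
        Real.exp (-(50 * n / m)) < 1 := by
  have hξ0 : 0 < |ξ| := abs_pos.mpr hξ
  -- eventual inequalities
  have hlogt : Tendsto (fun n : ℕ => Real.log (n : ℝ)) atTop atTop :=
    Real.tendsto_log_atTop.comp tendsto_natCast_atTop_atTop
  have E1 : ∀ᶠ n : ℕ in atTop, 4 ≤ Real.log (n : ℝ) := hlogt.eventually_ge_atTop _
  have E2 : ∀ᶠ n : ℕ in atTop, Real.log (n : ℝ) ^ 4 ≤ (1 / 16) * (n : ℝ) := by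
    have h1 : (fun x : ℝ => Real.log x ^ 4) =o[atTop] fun x : ℝ => x :=
      Real.isLittleO_pow_log_id_atTop (n := 4)
    have h2 := (h1.bound (by norm_num : (0 : ℝ) < 1 / 16))
    have h3 := tendsto_natCast_atTop_atTop (R := ℝ) |>.eventually h2
    filter_upwards [h3, eventually_ge_atTop 1] with n hn hn1
    have hn0 : (0 : ℝ) ≤ n := Nat.cast_nonneg n
    rw [Real.norm_eq_abs, Real.norm_eq_abs, abs_of_nonneg hn0] at hn
    exact (le_abs_self _).trans hn
  have E3 : ∀ᶠ n : ℕ in atTop, abs (Real.log |ξ|) + 10 ≤ (1 / 4) * (n : ℝ) :=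
    ((tendsto_natCast_atTop_atTop (R := ℝ)).const_mul_atTop
      (by norm_num : (0 : ℝ) < 1 / 4)).eventually_ge_atTop _
  obtain ⟨n₀, hn₀⟩ := eventually_atTop.1 (E1.and (E2.and (E3.and (eventually_ge_atTop 16))))
  refine ⟨n₀, fun n hn m K p hm hmK hKL hp1 hp2 => ?_⟩
  obtain ⟨e1, e2, e3, e4⟩ := hn₀ n hn
  obtain ⟨ℓ, hℓ⟩ : ∃ ℓ : ℝ, ℓ = Real.log n := ⟨_, rfl⟩
  rw [← hℓ] at e1 e2 hKL
  have hn16 : (16 : ℝ) ≤ n := by exact_mod_cast e4
  have hn0 : (0 : ℝ) < n := by linarith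
  have hℓ0 : 0 < ℓ := by linarith
  have hm8 : (8 : ℝ) ≤ m := by exact_mod_cast hm
  have hm0 : (0 : ℝ) < m := by linarith
  have hmK' : (m : ℝ) ≤ K := by exact_mod_cast hmK
  have hK8 : (8 : ℝ) ≤ K := by linarith
  have hK0 : (0 : ℝ) < K := by linarith
  have hlogK : 2 ≤ Real.log K := by
    rw [Real.le_log_iff_exp_le hK0]
    have h1 : Real.exp 2 = Real.exp 1 * Real.exp 1 := by rw [← Real.exp_add]; norm_num
    have h2 := Real.exp_one_lt_d9
    have h3 := Real.exp_pos 1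
    rw [h1]
    nlinarith
  have hKℓ : (K : ℝ) ≤ ℓ / 2 := by nlinarith
  have hmℓ : (m : ℝ) ≤ ℓ := by linarith
  have hp0 : (0 : ℝ) < p := by exact_mod_cast hp1
  have hpK : (p : ℝ) ≤ 2 * K := by exact_mod_cast hp2
  -- choice of N
  obtain ⟨t, ht⟩ : ∃ t : ℝ, t = 8 * n / (m * ℓ) := ⟨_, rfl⟩
  have ht0 : 0 < t := by rw [ht]; positivity
  obtain ⟨N, hN⟩ : ∃ N : ℕ, N = p * ⌈t / p⌉₊ := ⟨_, rfl⟩
  have hNt : t ≤ N := by
    rw [hN]
    push_cast
    have h1 := Nat.le_ceil (t / p)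
    rw [div_le_iff₀ hp0] at h1
    linarith
  have hNt2 : (N : ℝ) ≤ t + p := by
    rw [hN]
    push_cast
    have h1 := (Nat.ceil_lt_add_one (div_nonneg ht0.le hp0.le)).le
    calc (p : ℝ) * (⌈t / p⌉₊ : ℝ) ≤ p * (t / p + 1) := mul_le_mul_of_nonneg_left h1 hp0.le
      _ = t + p := by field_simp
  have htm : t * (m * ℓ) = 8 * n := by rw [ht]; field_simp
  have hN0 : (0 : ℝ) < N := lt_of_lt_of_le ht0 hNt
  have hNml : 8 * (n : ℝ) ≤ N * (m * ℓ) := by
    rw [← htm]
    exact mul_le_mul_of_nonneg_right hNt (by positivity)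
  have hpml : (p : ℝ) * (m * ℓ) ≤ n := by
    have h1 : (p : ℝ) * (m * ℓ) ≤ ℓ * (ℓ * ℓ) :=
      mul_le_mul (by linarith) (mul_le_mul_of_nonneg_right hmℓ hℓ0.le) (by positivity) hℓ0.le
    have h2 : ℓ * (ℓ * ℓ) ≤ ℓ ^ 4 := by
      have h3 : ℓ ^ 4 = ℓ * (ℓ * (ℓ * ℓ)) := by ring
      rw [h3]
      have h4 : ℓ * ℓ ≤ ℓ * (ℓ * ℓ) := by nlinarith [mul_pos hℓ0 hℓ0]
      exact mul_le_mul_of_nonneg_left h4 hℓ0.le
    linarith
  have hNml2 : (N : ℝ) * (m * ℓ) ≤ 9 * n := by
    have h1 := mul_le_mul_of_nonneg_right hNt2 (by positivity : (0 : ℝ) ≤ m * ℓ)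
    rw [add_mul, htm] at h1
    linarith
  -- log N
  have hlogN1 : ℓ / 2 ≤ Real.log N := by
    have h1 : Real.sqrt n ≤ N := by
      have h2 : (N : ℝ) * (ℓ * ℓ) ≥ 8 * n := by
        refine hNml.trans ?_
        apply mul_le_mul_of_nonneg_left _ hN0.le
        exact mul_le_mul_of_nonneg_right hmℓ hℓ0.le
      have h3 : (ℓ * ℓ) ≤ Real.sqrt n := by
        apply Real.le_sqrt_of_sq_le
        have : (ℓ * ℓ) ^ 2 = ℓ ^ 4 := by ring
        rw [this]
        linarith
      have h4 := Real.mul_self_sqrt hn0.le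
      have h5 : 0 < Real.sqrt n := Real.sqrt_pos.2 hn0
      have h6 : 8 * (Real.sqrt n * Real.sqrt n) ≤ N * Real.sqrt n := by
        rw [h4]
        exact h2.le.trans (mul_le_mul_of_nonneg_left h3 hN0.le)
      have h7 : (8 * Real.sqrt n) * Real.sqrt n ≤ N * Real.sqrt n := by linarith only [h6]
      have h8 := le_of_mul_le_mul_right h7 h5
      linarith only [h8, h5]
    have h2 := Real.log_le_log (Real.sqrt_pos.2 hn0) h1
    rw [Real.log_sqrt hn0.le, ← hℓ] at h2
    exact h2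
  have hNn : (N : ℝ) ≤ n := by
    have h1 : (9 : ℝ) ≤ m * ℓ := by
      have h2 := mul_le_mul hm8 e1 (by norm_num) hm0.le
      linarith only [h2]
    have h2 := mul_le_mul_of_nonneg_left h1 hN0.le
    linarith only [h2, hNml2]
  have hlogN2 : Real.log N ≤ ℓ := by
    rw [hℓ]
    exact Real.log_le_log hN0 hNn
  -- factorials
  have hfN : Real.log (N.factorial : ℝ) ≤ N * Real.log N := by
    have h1 : (N.factorial : ℝ) ≤ (N : ℝ) ^ N := by exact_mod_cast Nat.factorial_le_pow N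
    have h2 : (0 : ℝ) < N.factorial := by exact_mod_cast Nat.factorial_pos N
    have h3 := Real.log_le_log h2 h1
    rwa [Real.log_pow] at h3
  have hfK : Real.log (K.factorial : ℝ) ≤ ℓ := by
    have h1 : (K.factorial : ℝ) ≤ (K : ℝ) ^ K := by exact_mod_cast Nat.factorial_le_pow K
    have h2 : (0 : ℝ) < K.factorial := by exact_mod_cast Nat.factorial_pos K
    have h3 := Real.log_le_log h2 h1
    rw [Real.log_pow] at h3
    linarith
  have hfM : ((m : ℝ) + 1) * N * Real.log N ≤ Real.log (((m + 1) * N).factorial : ℝ) := by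
    have h1 := MahlerExp.fact_lower_h1 ((m + 1) * N)
    push_cast at h1
    have hm1 : (0 : ℝ) < (m : ℝ) + 1 := by linarith
    rw [Real.log_mul hm1.ne' hN0.ne'] at h1
    have h2 : 1 ≤ Real.log ((m : ℝ) + 1) := by
      rw [Real.le_log_iff_exp_le hm1]
      have := Real.exp_one_lt_d9
      linarith
    have h3 : ((m : ℝ) + 1) * N ≤ ((m : ℝ) + 1) * N * Real.log ((m : ℝ) + 1) := by
      have : 0 < ((m : ℝ) + 1) * N := by positivity
      nlinarith
    have h4 : ((m : ℝ) + 1) * N * (Real.log ((m : ℝ) + 1) + Real.log N) =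
      ((m : ℝ) + 1) * N * Real.log ((m : ℝ) + 1) + ((m : ℝ) + 1) * N * Real.log N := by ring
    rw [h4] at h1
    linarith
  have posN : (0 : ℝ) < N.factorial := by exact_mod_cast Nat.factorial_pos N
  have posK : (0 : ℝ) < K.factorial := by exact_mod_cast Nat.factorial_pos K
  have posM : (0 : ℝ) < (((m + 1) * N).factorial : ℝ) := by exact_mod_cast Nat.factorial_pos _
  have hNl : (0 : ℝ) < N * ℓ := by positivity
  -- first term
  have hA : |ξ * Real.exp n| * ((N.factorial : ℝ) * (K.factorial : ℝ) ^ (2 * N + 1)) *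
        (Real.exp K / (((m + 1) * N).factorial : ℝ)) ≤ 1 / 4 := by
    have h1 : |ξ * Real.exp n| * ((N.factorial : ℝ) * (K.factorial : ℝ) ^ (2 * N + 1)) *
        (Real.exp K / (((m + 1) * N).factorial : ℝ)) = Real.exp (Real.log |ξ| + n +
          (Real.log (N.factorial : ℝ) + ((2 * N + 1 : ℕ) : ℝ) * Real.log (K.factorial : ℝ)) +
          (K - Real.log (((m + 1) * N).factorial : ℝ))) := by
      rw [Real.exp_add, Real.exp_add, Real.exp_add, Real.exp_add, Real.exp_log hξ0, Real.exp_log posN,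
        Real.exp_nat_mul, Real.exp_log posK, Real.exp_sub, Real.exp_log posM, abs_mul,
        abs_of_pos (Real.exp_pos _)]
    rw [h1]
    have h2 : Real.log |ξ| + n +
          (Real.log (N.factorial : ℝ) + ((2 * N + 1 : ℕ) : ℝ) * Real.log (K.factorial : ℝ)) +
          (K - Real.log (((m + 1) * N).factorial : ℝ)) ≤ -3 := by
      have h3 : ((2 * N + 1 : ℕ) : ℝ) * Real.log (K.factorial : ℝ) ≤ (2 * N + 1) * ℓ := by
        push_cast
        exact mul_le_mul_of_nonneg_left hfK (by positivity)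
      have h4 : Real.log |ξ| ≤ abs (Real.log |ξ|) := le_abs_self _
      have h5 : (m : ℝ) * N * (ℓ / 2) ≤ m * N * Real.log N :=
        mul_le_mul_of_nonneg_left hlogN1 (by positivity)
      have h6 : (m : ℝ) * N * (ℓ / 2) = (N * (m * ℓ)) / 4 + (m / 4) * (N * ℓ) := by ring
      have h7 : 2 * (N * ℓ) ≤ (m / 4) * (N * ℓ) :=
        mul_le_mul_of_nonneg_right (by linarith) hNl.le
      have h8 : ℓ ≤ (1 / 16) * (n : ℝ) := by
        have h9 : ℓ ≤ ℓ ^ 4 := by
          have : (1 : ℝ) ≤ ℓ ^ 3 := one_le_pow₀ (by linarith)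
          have h10 : ℓ ^ 4 = ℓ * ℓ ^ 3 := by ring
          rw [h10]
          exact le_mul_of_one_le_right hℓ0.le this
        linarith
      have h9 : ((m : ℝ) + 1) * N * Real.log N = m * N * Real.log N + N * Real.log N := by ring
      linarith only [h3, h4, h5, h6, h7, h8, h9, hfN, hfM, hNml, e3, hKℓ, hn16]
    have h3 : Real.exp (-3) ≤ 1 / 4 := by
      rw [Real.exp_neg, inv_eq_one_div]
      apply one_div_le_one_div_of_le (by norm_num)
      have := Real.add_one_le_exp (3 : ℝ)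
      linarith
    exact (Real.exp_le_exp.2 h2).trans h3
  have hB : (m + 1) * (3 * 2 ^ ((m + 1) * N + 1) * ((N.factorial : ℝ) * (K.factorial : ℝ) ^ (2 * N + 1))) *
        Real.exp (-(50 * n / m)) ≤ 1 / 4 := by
    have hm1 : (0 : ℝ) < (m : ℝ) + 1 := by linarith
    have h1 : ((m : ℝ) + 1) * (3 * 2 ^ ((m + 1) * N + 1) * ((N.factorial : ℝ) * (K.factorial : ℝ) ^ (2 * N + 1))) *
        Real.exp (-(50 * n / m)) = Real.exp (Real.log ((m : ℝ) + 1) + (Real.log 3 +
          (((m + 1) * N + 1 : ℕ) : ℝ) * Real.log 2 +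
          (Real.log (N.factorial : ℝ) + ((2 * N + 1 : ℕ) : ℝ) * Real.log (K.factorial : ℝ))) +
          (-(50 * n / m))) := by
      rw [Real.exp_add, Real.exp_add, Real.exp_add, Real.exp_add, Real.exp_add, Real.exp_log hm1,
        Real.exp_log (by norm_num), Real.exp_log posN,
        Real.exp_nat_mul, Real.exp_nat_mul, Real.exp_log posK, Real.exp_log (by norm_num)]
    rw [h1]
    have h2 : Real.log ((m : ℝ) + 1) + (Real.log 3 +
          (((m + 1) * N + 1 : ℕ) : ℝ) * Real.log 2 +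
          (Real.log (N.factorial : ℝ) + ((2 * N + 1 : ℕ) : ℝ) * Real.log (K.factorial : ℝ))) +
          (-(50 * n / m)) ≤ -3 := by
      have h3 : ((2 * N + 1 : ℕ) : ℝ) * Real.log (K.factorial : ℝ) ≤ (2 * N + 1) * ℓ := by
        push_cast
        exact mul_le_mul_of_nonneg_left hfK (by positivity)
      have h4 : Real.log ((m : ℝ) + 1) ≤ m := by
        have := Real.log_le_sub_one_of_pos hm1
        linarith
      have h5 : Real.log 3 ≤ 2 := by
        have := Real.log_le_sub_one_of_pos (show (0 : ℝ) < 3 by norm_num)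
        linarith
      have h6 : (((m + 1) * N + 1 : ℕ) : ℝ) * Real.log 2 ≤ (m + 1) * N + 1 := by
        push_cast
        have : Real.log 2 ≤ 1 := by
          have := Real.log_two_lt_d9
          linarith
        exact mul_le_of_le_one_right (by positivity) this
      have h7 : (N : ℝ) * Real.log N ≤ N * ℓ := mul_le_mul_of_nonneg_left hlogN2 hN0.le
      -- everything in terms of n / m
      obtain ⟨y, hy⟩ : ∃ y : ℝ, y = n / m := ⟨_, rfl⟩
      have hy0 : 0 < y := by rw [hy]; positivity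
      have hyn : y * m = n := by rw [hy]; field_simp
      have h8 : (N : ℝ) * ℓ ≤ 9 * y := by
        have h9 : (N : ℝ) * ℓ * m ≤ 9 * y * m := by
          rw [mul_assoc 9 y, hyn]
          linarith
        exact le_of_mul_le_mul_right h9 hm0
      have h10 : ((m : ℝ) + 1) * N ≤ 2 * (N * ℓ) := by
        have h14 : ((m : ℝ) + 1) * N ≤ (2 * ℓ) * N := mul_le_mul_of_nonneg_right (by linarith only [hmℓ, e1]) hN0.le
        linarith only [h14]
      have h11 : (m : ℝ) ≤ y := by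
        have h12 : (m : ℝ) * m ≤ y * m := by
          rw [hyn]
          have h13 : (m : ℝ) * m ≤ ℓ * ℓ := mul_le_mul hmℓ hmℓ hm0.le hℓ0.le
          have h14 : ℓ * ℓ ≤ ℓ ^ 4 := by
            have : (1 : ℝ) ≤ ℓ ^ 2 := one_le_pow₀ (by linarith)
            have h15 : ℓ ^ 4 = (ℓ * ℓ) * ℓ ^ 2 := by ring
            rw [h15]
            exact le_mul_of_one_le_right (by positivity) this
          linarith
        exact le_of_mul_le_mul_right h12 hm0
      have h12 : ℓ ≤ y := by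
        have h13 : ℓ * m ≤ y * m := by
          rw [hyn]
          have h13 : ℓ * (m : ℝ) ≤ ℓ * ℓ := mul_le_mul_of_nonneg_left hmℓ hℓ0.le
          have h14 : ℓ * ℓ ≤ ℓ ^ 4 := by
            have : (1 : ℝ) ≤ ℓ ^ 2 := one_le_pow₀ (by linarith)
            have h15 : ℓ ^ 4 = (ℓ * ℓ) * ℓ ^ 2 := by ring
            rw [h15]
            exact le_mul_of_one_le_right (by positivity) this
          linarith
        exact le_of_mul_le_mul_right h13 hm0
      have h13 : 50 * (n : ℝ) / m = 50 * y := by rw [hy]; ring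
      rw [h13]
      linarith only [h3, h4, h5, h6, h7, h8, h10, h11, h12, hfN, hm8]
    have h3 : Real.exp (-3) ≤ 1 / 4 := by
      rw [Real.exp_neg, inv_eq_one_div]
      apply one_div_le_one_div_of_le (by norm_num)
      have := Real.add_one_le_exp (3 : ℝ)
      linarith
    exact (Real.exp_le_exp.2 h2).trans h3
  refine ⟨N, by rw [hN]; exact Dvd.intro _ rfl, ?_⟩
  linarith

end TH456.TI
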