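import Mathlib
import Pool.Agent.TH456.HN.Win

set_option autoImplicit false

namespace TH456.TI

open Finset Filter Topology

/-- distance to the nearest integer -/
noncomputable def dz (x : ℝ) : ℝ := |x - round x|

/-- In a short window there are few integers `k` with `‖ξ e^k‖` small. -/
theorem window3 (ξ : ℝ) (hξ : ξ ≠ 0) : ∃ n₀ : ℕ, ∀ n : ℕ, n₀ ≤ n → ∀ m K : ℕ, 8 ≤ m → m ≤ K →
    (K : ℝ) * Real.log K ≤ Real.log n →
      ((Icc n (n + K)).filter
        (fun k : ℕ => dz (ξ * Real.exp k) ≤ Real.exp (-(50 * n / m)))).card ≤ m := by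
  obtain ⟨n1, hn1⟩ := numbers ξ hξ
  have hξ0 : 0 < |ξ| := abs_pos.mpr hξ
  have hbig : ∀ᶠ n : ℕ in atTop, 1 / |ξ| ≤ Real.exp n :=
    (Real.tendsto_exp_atTop.comp (tendsto_natCast_atTop_atTop (R := ℝ))).eventually_ge_atTop _
  obtain ⟨n2, hn2⟩ := eventually_atTop.1 hbig
  refine ⟨max n1 n2, fun n hn m K hm hmK hKL => ?_⟩
  have hna : n1 ≤ n := (le_max_left _ _).trans hn
  have hnb : n2 ≤ n := (le_max_right _ _).trans hn
  by_contra hcon
  push Not at hcon
  obtain ⟨T, hTS, hT⟩ := Finset.exists_subset_card_eq (Nat.succ_le_of_lt hcon)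
  let x : Fin (m + 1) ↪o ℕ := T.orderEmbOfFin hT
  have hx : ∀ i, (n ≤ x i ∧ x i ≤ n + K) ∧
      dz (ξ * Real.exp (x i)) ≤ Real.exp (-(50 * n / m)) := by
    intro i
    have h1 := hTS (T.orderEmbOfFin_mem hT i)
    rw [Finset.mem_filter, Finset.mem_Icc] at h1
    exact h1
  obtain ⟨p, hp, hKp, hp2⟩ := Nat.exists_prime_lt_and_le_two_mul K (by omega)
  obtain ⟨N, hpN, hlt⟩ := hn1 n hna m K p hm hmK hKL hp.one_lt.le hp2
  have hkey := key3 (m := m) K N p hp hKp hpN (fun i => ((x i - n : ℕ) : ℤ)) (by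
      intro i j hij
      have h1 : x i - n = x j - n := Int.ofNat.inj hij
      have h2 := (hx i).1.1
      have h3 := (hx j).1.1
      have h4 : x i = x j := by omega
      exact x.injective h4) (fun i => Int.natCast_nonneg _)
    (fun i => by
      have := (hx i).1.2
      have h2 : x i - n ≤ K := by omega
      exact_mod_cast h2) (fun i => round (ξ * Real.exp (x i))) (by
      intro h0
      have h1 := congrFun h0 0
      simp only [Pi.zero_apply] at h1
      have h4 := abs_sub_round (ξ * Real.exp (x 0))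
      rw [h1, Int.cast_zero, sub_zero, abs_mul, abs_of_pos (Real.exp_pos _)] at h4
      have h5 := hn2 (x 0) (hnb.trans (hx 0).1.1)
      rw [div_le_iff₀ hξ0] at h5
      linarith)
    (ξ * Real.exp n) (Real.exp (-(50 * n / m))) (by
      intro i
      have e0 : ξ * Real.exp n * Real.exp ((((x i - n : ℕ) : ℤ) : ℝ)) = ξ * Real.exp (x i : ℕ) := by
        rw [mul_assoc, ← Real.exp_add]
        congr 2
        have h2 := (hx i).1.1
        rw [Int.cast_natCast, Nat.cast_sub h2]
        ring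
      rw [e0]
      exact (hx i).2)
  linarith

/-- covering `[1, X]` by blocks -/
theorem cover (E : ℕ → Prop) [DecidablePred E] (X s K m : ℕ)
    (h : ∀ n : ℕ, s ≤ n → n ≤ X → ((Icc n (n + K)).filter (fun k => E k ∧ k ≤ X)).card ≤ m) :
    (((Icc 1 X).filter E).card : ℝ) ≤ s + (X / (K + 1) + 1) * m := by
  have hcov : (Icc 1 X).filter E ⊆ range s ∪ (range (X / (K + 1) + 1)).biUnion
      (fun t => if s + t * (K + 1) ≤ X then
        (Icc (s + t * (K + 1)) (s + t * (K + 1) + K)).filter (fun k => E k ∧ k ≤ X) else ∅) := by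
    intro x hx
    rw [mem_filter, mem_Icc] at hx
    rw [mem_union]
    by_cases hxs : x < s
    · left
      exact mem_range.2 hxs
    · right
      push Not at hxs
      rw [mem_biUnion]
      refine ⟨(x - s) / (K + 1), ?_, ?_⟩
      · rw [mem_range]
        exact Nat.lt_succ_of_le (Nat.div_le_div_right (by omega))
      · have h1 := Nat.div_add_mod (x - s) (K + 1)
        have h2 := Nat.mod_lt (x - s) (by omega : 0 < K + 1)
        rw [mul_comm] at h1
        rw [if_pos (by omega), mem_filter, mem_Icc]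
        refine ⟨⟨by omega, by omega⟩, hx.2, hx.1.2⟩
  have hcard : ((Icc 1 X).filter E).card ≤ s + (X / (K + 1) + 1) * m := by
    refine (card_le_card hcov).trans ((card_union_le _ _).trans ?_)
    rw [card_range]
    apply Nat.add_le_add_left
    refine (card_biUnion_le).trans ?_
    calc _ ≤ ∑ t ∈ range (X / (K + 1) + 1), m := by
          refine sum_le_sum fun t _ => ?_
          split_ifs with ht
          · exact h _ (Nat.le_add_right _ _) ht
          · simp
      _ = _ := by simp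
  have h1 : (((Icc 1 X).filter E).card : ℝ) ≤ ((s + (X / (K + 1) + 1) * m : ℕ) : ℝ) := by
    exact_mod_cast hcard
  refine h1.trans ?_
  push_cast
  have h2 : ((X / (K + 1) : ℕ) : ℝ) ≤ (X : ℝ) / (K + 1) := by
    have := @Nat.cast_div_le ℝ _ _ _ X (K + 1)
    push_cast at this
    exact this
  have hm : (0 : ℝ) ≤ m := Nat.cast_nonneg m
  have := mul_le_mul_of_nonneg_right (add_le_add_left h2 1) hm
  linarith

/-- Up to `X` there are at most `ε X` integers `n` with `‖ξ e^n‖ ≤ exp(-C n log log n / log n)`. -/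
theorem density3 (ξ : ℝ) (hξ : ξ ≠ 0) (ε : ℝ) (hε : 0 < ε) : ∃ C : ℝ, 0 < C ∧ ∃ X₀ : ℕ,
    ∀ X : ℕ, X₀ ≤ X →
      (((Icc 1 X).filter (fun n : ℕ => dz (ξ * Real.exp n) ≤
        Real.exp (-(C * n * Real.log (Real.log n) / Real.log n)))).card : ℝ) ≤ ε * X := by
  obtain ⟨ε', hε'0, hε'1, hε'ε⟩ : ∃ ε' : ℝ, 0 < ε' ∧ ε' ≤ 1 ∧ ε' ≤ ε :=
    ⟨min ε 1, lt_min hε one_pos, min_le_right _ _, min_le_left _ _⟩
  obtain ⟨n₀, hn₀⟩ := window3 ξ hξ
  have hlogt : Tendsto (fun s : ℕ => Real.log (s : ℝ)) atTop atTop :=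
    Real.tendsto_log_atTop.comp tendsto_natCast_atTop_atTop
  have C2 : ∀ᶠ s : ℕ in atTop, 1 ≤ Real.log (Real.log (s : ℝ)) :=
    (Real.tendsto_log_atTop.comp hlogt).eventually_ge_atTop _
  have C3 : ∀ᶠ s : ℕ in atTop, (32 / ε' + 2) * Real.log (Real.log (s : ℝ)) ≤ Real.log (s : ℝ) := by
    have hc : 0 < 1 / (32 / ε' + 2) := by positivity
    have h1 := Real.isLittleO_log_id_atTop.bound hc
    have h2 := hlogt.eventually h1
    filter_upwards [h2, hlogt.eventually_ge_atTop 0] with s hs hs0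
    rw [Real.norm_eq_abs, Real.norm_eq_abs, id, abs_of_nonneg hs0] at hs
    have h3 := (le_abs_self _).trans hs
    have h4 : (0 : ℝ) < 32 / ε' + 2 := by positivity
    rw [one_div, inv_mul_eq_div, le_div_iff₀ h4] at h3
    linarith
  have C4 : ∀ᶠ s : ℕ in atTop, 8 / ε' ≤ (s : ℝ) :=
    (tendsto_natCast_atTop_atTop (R := ℝ)).eventually_ge_atTop _
  obtain ⟨s₀, hs₀⟩ := eventually_atTop.1 (C2.and (C3.and (C4.and
    ((eventually_ge_atTop 3).and (eventually_ge_atTop n₀)))))
  refine ⟨1200 / ε', by positivity, s₀ * s₀, fun X hX => ?_⟩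
  obtain ⟨s, hs⟩ : ∃ s, s = Nat.sqrt X := ⟨_, rfl⟩
  have hss : s₀ ≤ s := by rw [hs]; exact Nat.le_sqrt.2 hX
  obtain ⟨c2, c3, c4, c5, c6⟩ := hs₀ s hss
  obtain ⟨L, hL⟩ : ∃ L : ℝ, L = Real.log s := ⟨_, rfl⟩
  obtain ⟨l, hl⟩ : ∃ l : ℝ, l = Real.log L := ⟨_, rfl⟩
  rw [← hL, ← hl] at c2 c3
  have hs3 : (3 : ℝ) ≤ s := by exact_mod_cast c5
  have hs0 : (0 : ℝ) < s := by linarith
  have hq0 : 0 < 32 / ε' := by positivity
  have hL2 : 2 ≤ L := by nlinarith
  have hL0 : 0 < L := by linarith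
  have hl0 : 0 < l := by linarith
  have hX1 : (s : ℝ) * s ≤ X := by
    have : s * s ≤ X := by rw [hs]; exact Nat.sqrt_le X
    exact_mod_cast this
  have hX0 : (0 : ℝ) < X := by nlinarith
  have hlogX : Real.log X ≤ 3 * L := by
    have h1 : X < (s + 1) * (s + 1) := by rw [hs]; exact Nat.lt_succ_sqrt X
    have h2 : (X : ℝ) ≤ (s : ℝ) ^ 3 := by
      have h3 : (X : ℝ) ≤ ((s : ℝ) + 1) * (s + 1) := by exact_mod_cast h1.le
      nlinarith [mul_pos hs0 hs0]
    have h3 := Real.log_le_log hX0 h2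
    rw [Real.log_pow, ← hL] at h3
    exact_mod_cast h3
  have hLs : L ≤ s := by
    have := Real.log_le_sub_one_of_pos hs0
    rw [hL]; linarith
  -- the block length and the allowed number of exceptions
  obtain ⟨K, hK⟩ : ∃ K : ℕ, K = ⌊L / l⌋₊ := ⟨_, rfl⟩
  have hLl : 32 / ε' + 2 ≤ L / l := by rw [le_div_iff₀ hl0]; exact c3
  have hK1 : (K : ℝ) ≤ L / l := by rw [hK]; exact Nat.floor_le (by positivity)
  have hK2 : L / l < K + 1 := by rw [hK]; exact Nat.lt_floor_add_one _
  have hK3 : 32 / ε' ≤ K := by linarith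
  have hKhalf : L / l ≤ 2 * K := by linarith
  have hKpos : (0 : ℝ) < K := by linarith
  have hKL : (K : ℝ) * Real.log K ≤ L := by
    have h1 : (K : ℝ) ≤ L := hK1.trans (div_le_self hL0.le c2)
    have h2 : Real.log K ≤ l := by rw [hl]; exact Real.log_le_log hKpos h1
    calc (K : ℝ) * Real.log K ≤ K * l := mul_le_mul_of_nonneg_left h2 hKpos.le
      _ ≤ (L / l) * l := mul_le_mul_of_nonneg_right hK1 hl0.le
      _ = L := div_mul_cancel₀ _ hl0.ne'
  obtain ⟨m, hm⟩ : ∃ m : ℕ, m = ⌈ε' * K / 4⌉₊ := ⟨_, rfl⟩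
  have hm1 : ε' * K / 4 ≤ m := by rw [hm]; exact Nat.le_ceil _
  have hm2 : (m : ℝ) ≤ ε' * K / 4 + 1 := by
    rw [hm]; exact (Nat.ceil_lt_add_one (by positivity)).le
  have hεK : 32 ≤ ε' * K := by
    rw [div_le_iff₀ hε'0] at hK3
    linarith
  have hm8 : 8 ≤ m := by
    have : (8 : ℝ) ≤ m := by linarith
    exact_mod_cast this
  have hKbig : (32 : ℝ) ≤ K := by nlinarith
  have hmK : m ≤ K := by
    have : (m : ℝ) ≤ K := by nlinarith
    exact_mod_cast this
  have hmpos : (0 : ℝ) < m := by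
    have : 0 < m := by omega
    exact_mod_cast this
  have hcov := cover (fun n : ℕ => dz (ξ * Real.exp n) ≤
        Real.exp (-(1200 / ε' * n * Real.log (Real.log n) / Real.log n))) X s K m (by
    intro n hsn hnX
    refine le_trans (card_le_card ?_) (hn₀ n (c6.trans hsn) m K hm8 hmK ?_)
    · intro k hk
      rw [mem_filter, mem_Icc] at hk ⊢
      refine ⟨hk.1, hk.2.1.trans ?_⟩
      apply Real.exp_le_exp.2
      apply neg_le_neg
      have hkr : (s : ℝ) ≤ k := by exact_mod_cast hsn.trans hk.1.1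
      have hnk : (n : ℝ) ≤ k := by exact_mod_cast hk.1.1
      have hkX : (k : ℝ) ≤ X := by exact_mod_cast hk.2.2
      have hk0 : (0 : ℝ) < k := by linarith
      have h1 : L ≤ Real.log k := by rw [hL]; exact Real.log_le_log hs0 hkr
      have h2 : Real.log k ≤ 3 * L := (Real.log_le_log hk0 hkX).trans hlogX
      have h3 : l ≤ Real.log (Real.log k) := by rw [hl]; exact Real.log_le_log hL0 h1
      have hn0 : (0 : ℝ) ≤ n := Nat.cast_nonneg n
      have h4 : 50 * (n : ℝ) / m ≤ 400 * n * l / (ε' * L) := by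
        rw [div_le_div_iff₀ hmpos (by positivity)]
        have h5 : ε' * L ≤ 8 * m * l := by
          have h6 : L ≤ 2 * K * l := by
            rw [div_le_iff₀ hl0] at hKhalf
            exact hKhalf
          have h7 : ε' * L ≤ ε' * (2 * K * l) := mul_le_mul_of_nonneg_left h6 hε'0.le
          have h8 : ε' * (2 * K * l) = (ε' * K / 4) * (8 * l) := by ring
          have h9 : (ε' * K / 4) * (8 * l) ≤ m * (8 * l) := mul_le_mul_of_nonneg_right hm1 (by positivity)
          linarith only [h7, h8, h9]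
        have h6 : 50 * (n : ℝ) * (ε' * L) ≤ 50 * n * (8 * m * l) :=
          mul_le_mul_of_nonneg_left h5 (by positivity)
        linarith only [h6]
      have h5 : 400 * (n : ℝ) * l / (ε' * L) = 1200 / ε' * n * l / (3 * L) := by
        field_simp
        ring
      have hlk : 0 < Real.log k := by linarith
      rw [h5] at h4
      refine h4.trans ?_
      apply div_le_div₀ _ _ hlk h2
      · have : 0 ≤ 1200 / ε' * (k : ℝ) := by positivity
        exact mul_nonneg this (by linarith)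
      · apply mul_le_mul _ h3 hl0.le (by positivity)
        exact mul_le_mul_of_nonneg_left hnk (by positivity)
    · refine hKL.trans ?_
      rw [hL]
      exact Real.log_le_log hs0 (by exact_mod_cast hsn))
  refine hcov.trans ?_
  have hK10 : (0 : ℝ) < K + 1 := by linarith
  have hmK1 : (m : ℝ) / (K + 1) ≤ ε' / 2 := by
    rw [div_le_iff₀ hK10]
    nlinarith
  have hsX : (s : ℝ) ≤ ε' / 8 * X := by
    have h1 : 8 ≤ ε' * s := by
      rw [div_le_iff₀ hε'0] at c4
      linarith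
    have h2 : 8 * (s : ℝ) ≤ ε' * (s * s) := by
      have := mul_le_mul_of_nonneg_right h1 hs0.le
      linarith
    have h3 : ε' * ((s : ℝ) * s) ≤ ε' * X := mul_le_mul_of_nonneg_left hX1 hε'0.le
    linarith
  have hmX : (m : ℝ) ≤ ε' / 8 * X := by
    have h1 : (m : ℝ) ≤ K := by exact_mod_cast hmK
    have h2 : (K : ℝ) ≤ L := hK1.trans (div_le_self hL0.le c2)
    linarith
  have h1 : (X / ((K : ℝ) + 1) + 1) * m = X * (m / (K + 1)) + m := by
    field_simp
  rw [h1]
  have h2 : (X : ℝ) * (m / (K + 1)) ≤ X * (ε' / 2) := mul_le_mul_of_nonneg_left hmK1 hX0.le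
  have h3 : ε' * X ≤ ε * X := mul_le_mul_of_nonneg_right hε'ε hX0.le
  have h4 : 0 < ε' * X := mul_pos hε'0 hX0
  linarith

/-- For almost all `n`, `‖ξ e^n‖ > exp(-n / (log n)^{1-η})`. -/
theorem zero_density3 (ξ : ℝ) (hξ : ξ ≠ 0) (η : ℝ) (hη : 0 < η) :
    Tendsto (fun X : ℕ => (((Icc 1 X).filter (fun n : ℕ => dz (ξ * Real.exp n) ≤
        Real.exp (-((n : ℝ) / Real.log n ^ (1 - η))))).card : ℝ) / X) atTop (𝓝 0) := by
  rw [Metric.tendsto_atTop]
  intro ε hε
  obtain ⟨C, hC, X₀, hX₀⟩ := density3 ξ hξ (ε / 4) (by linarith)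
  have hlogt : Tendsto (fun s : ℕ => Real.log (s : ℝ)) atTop atTop :=
    Real.tendsto_log_atTop.comp tendsto_natCast_atTop_atTop
  have hev : ∀ᶠ n : ℕ in atTop, C * Real.log (Real.log (n : ℝ)) ≤ Real.log (n : ℝ) ^ η := by
    have h1 := (isLittleO_log_rpow_atTop hη).bound (show (0 : ℝ) < 1 / C by positivity)
    have h2 := hlogt.eventually h1
    filter_upwards [h2, hlogt.eventually_ge_atTop 0] with n hn hn0
    rw [Real.norm_eq_abs, Real.norm_eq_abs, abs_of_nonneg (Real.rpow_nonneg hn0 _)] at hn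
    have h3 := (le_abs_self _).trans hn
    rw [one_div, inv_mul_eq_div, le_div_iff₀ hC] at h3
    linarith
  obtain ⟨n₁, hn₁⟩ := eventually_atTop.1 (hev.and (hlogt.eventually_ge_atTop 1))
  obtain ⟨X₁, hX₁⟩ := exists_nat_gt (4 * (n₁ : ℝ) / ε)
  refine ⟨max X₀ (max X₁ 1), fun X hX => ?_⟩
  have hXa : X₀ ≤ X := (le_max_left _ _).trans hX
  have hXb : X₁ ≤ X := ((le_max_left _ _).trans (le_max_right _ _)).trans hX
  have hXc : 1 ≤ X := ((le_max_right _ _).trans (le_max_right _ _)).trans hX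
  have hX0 : (0 : ℝ) < X := by exact_mod_cast hXc
  rw [Real.dist_eq, sub_zero, abs_of_nonneg (by positivity), div_lt_iff₀ hX0]
  have hsub : (Icc 1 X).filter (fun n : ℕ => dz (ξ * Real.exp n) ≤
        Real.exp (-((n : ℝ) / Real.log n ^ (1 - η)))) ⊆ range n₁ ∪
      (Icc 1 X).filter (fun n : ℕ => dz (ξ * Real.exp n) ≤
        Real.exp (-(C * n * Real.log (Real.log n) / Real.log n))) := by
    intro n hn
    rw [mem_filter] at hn
    rw [mem_union]
    by_cases hnn : n < n₁
    · exact Or.inl (mem_range.2 hnn)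
    · right
      push Not at hnn
      rw [mem_filter]
      refine ⟨hn.1, hn.2.trans ?_⟩
      apply Real.exp_le_exp.2
      apply neg_le_neg
      obtain ⟨h1, h2⟩ := hn₁ n hnn
      have hl0 : 0 < Real.log n := by linarith
      have h3 : (n : ℝ) / Real.log n ^ (1 - η) = n * Real.log n ^ η / Real.log n := by
        rw [Real.rpow_sub hl0, Real.rpow_one]
        field_simp
      rw [h3]
      apply div_le_div_of_nonneg_right _ hl0.le
      have h4 := mul_le_mul_of_nonneg_left h1 (Nat.cast_nonneg n : (0 : ℝ) ≤ n)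
      linarith
  have hcard : (((Icc 1 X).filter (fun n : ℕ => dz (ξ * Real.exp n) ≤
        Real.exp (-((n : ℝ) / Real.log n ^ (1 - η))))).card : ℝ) ≤ n₁ + ε / 4 * X := by
    have h1 := (card_le_card hsub).trans (card_union_le _ _)
    rw [card_range] at h1
    have h2 : (((Icc 1 X).filter (fun n : ℕ => dz (ξ * Real.exp n) ≤
        Real.exp (-((n : ℝ) / Real.log n ^ (1 - η))))).card : ℝ) ≤ n₁ +
        (((Icc 1 X).filter (fun n : ℕ => dz (ξ * Real.exp n) ≤
        Real.exp (-(C * n * Real.log (Real.log n) / Real.log n)))).card : ℝ) := by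
      exact_mod_cast h1
    have h3 := hX₀ X hXa
    linarith
  refine lt_of_le_of_lt hcard ?_
  have h1 : (n₁ : ℝ) < ε / 4 * X := by
    rw [div_lt_iff₀ hε] at hX₁
    have h2 : (X₁ : ℝ) ≤ X := by exact_mod_cast hXb
    nlinarith
  nlinarith [mul_pos hε hX0]

end TH456.TI
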