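import Mathlib

set_option autoImplicit false

/-! The special convergents `p_n / q_n` of `e` (1/1, 3/1, 19/7, 193/71, ...), through the integrals
`∫_0^1 (x (1 - x))^n e^x dx / n!`. -/

namespace TH456.CE

open intervalIntegral

def p : ℕ → ℤ
  | 0 => 1
  | 1 => 3
  | (n + 2) => (4 * n + 6) * p (n + 1) + p n

def q : ℕ → ℤ
  | 0 => 1
  | 1 => 1
  | (n + 2) => (4 * n + 6) * q (n + 1) + q n

noncomputable def J (n : ℕ) : ℝ := ∫ x in (0 : ℝ)..1, (x * (1 - x)) ^ n * Real.exp x

theorem J_cont (n : ℕ) : Continuous fun x : ℝ => (x * (1 - x)) ^ n * Real.exp x := by fun_prop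

theorem J_pos (n : ℕ) : 0 < J n := by
  unfold J
  apply intervalIntegral.intervalIntegral_pos_of_pos_on
  · exact (J_cont n).intervalIntegrable _ _
  · intro x hx
    have h1 : 0 < x * (1 - x) := mul_pos hx.1 (by linarith [hx.2])
    positivity
  · norm_num

theorem J_zero : J 0 = Real.exp 1 - 1 := by
  unfold J
  simp [integral_exp]

theorem J_one : J 1 = 3 - Real.exp 1 := by
  unfold J
  have h : ∀ x ∈ Set.uIcc (0 : ℝ) 1, HasDerivAt (fun y : ℝ => (-y ^ 2 + 3 * y - 3) * Real.exp y)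
      ((x * (1 - x)) ^ 1 * Real.exp x) x := by
    intro x _
    have h1 : HasDerivAt (fun y : ℝ => (-y ^ 2 + 3 * y - 3)) (-(2 * x) + 3) x := by
      have := (((hasDerivAt_pow 2 x).neg).add ((hasDerivAt_id x).const_mul 3)).sub_const 3
      refine this.congr_deriv ?_
      simp
    refine (h1.mul (Real.hasDerivAt_exp x)).congr_deriv ?_
    ring
  rw [integral_eq_sub_of_hasDerivAt h ((J_cont 1).intervalIntegrable _ _)]
  simp
  ring

theorem J_rec (n : ℕ) : J (n + 2) + (n + 2) * (4 * n + 6) * J (n + 1) = (n + 2) * (n + 1) * J n := by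
  have h : ∀ x ∈ Set.uIcc (0 : ℝ) 1, HasDerivAt
      (fun y : ℝ => ((y * (1 - y)) ^ (n + 2) - (n + 2) * (y * (1 - y)) ^ (n + 1) * (1 - 2 * y)) * Real.exp y)
      ((x * (1 - x)) ^ (n + 2) * Real.exp x + (n + 2) * (4 * n + 6) * ((x * (1 - x)) ^ (n + 1) * Real.exp x)
        - (n + 2) * (n + 1) * ((x * (1 - x)) ^ n * Real.exp x)) x := by
    intro x _
    have hw : HasDerivAt (fun y : ℝ => y * (1 - y)) (1 - 2 * x) x := by
      have := (hasDerivAt_id x).mul ((hasDerivAt_id x).const_sub 1)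
      refine this.congr_deriv ?_
      simp; ring
    have hl : HasDerivAt (fun y : ℝ => 1 - 2 * y) (-2) x := by
      have := ((hasDerivAt_id x).const_mul 2).const_sub 1
      refine this.congr_deriv ?_
      simp
    have h1 := hw.pow (n + 2)
    have h2 := ((hw.pow (n + 1)).const_mul ((n : ℝ) + 2)).mul hl
    have h3 := (h1.sub h2).mul (Real.hasDerivAt_exp x)
    refine h3.congr_deriv ?_
    simp only [Pi.pow_apply, Pi.sub_apply, Pi.mul_apply, Nat.add_sub_cancel]
    have e1 : n + 2 - 1 = n + 1 := rfl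
    rw [e1]
    push_cast
    ring
  have h0 := integral_eq_sub_of_hasDerivAt h (by
    apply Continuous.intervalIntegrable
    fun_prop)
  rw [intervalIntegral.integral_sub, intervalIntegral.integral_add, intervalIntegral.integral_const_mul,
    intervalIntegral.integral_const_mul] at h0
  · unfold J
    simp at h0
    linarith
  all_goals
    apply Continuous.intervalIntegrable
    fun_prop

noncomputable def I (n : ℕ) : ℝ := J n / (n.factorial : ℝ)

theorem I_pos (n : ℕ) : 0 < I n := by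
  have : (0 : ℝ) < n.factorial := by exact_mod_cast Nat.factorial_pos n
  exact div_pos (J_pos n) this

theorem I_rec (n : ℕ) : I (n + 2) + (4 * n + 6) * I (n + 1) = I n := by
  have h := J_rec n
  have h0 : (0 : ℝ) < n.factorial := by exact_mod_cast Nat.factorial_pos n
  unfold I
  rw [Nat.factorial_succ, Nat.factorial_succ]
  push_cast
  have h1 : (0 : ℝ) < (n : ℝ) + 1 := by positivity
  have h2 : (0 : ℝ) < (n : ℝ) + 1 + 1 := by positivity
  field_simp
  linarith

theorem I_eq (n : ℕ) : (-1) ^ n * I n = Real.exp 1 * q n - p n ∧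
    (-1) ^ (n + 1) * I (n + 1) = Real.exp 1 * q (n + 1) - p (n + 1) := by
  induction n with
  | zero =>
    constructor
    · simp [I, J_zero, p, q]
    · simp [I, J_one, p, q]
  | succ n ih =>
    refine ⟨ih.2, ?_⟩
    have h := I_rec n
    have h1 : (-1 : ℝ) ^ (n + 1 + 1) * I (n + 1 + 1) =
        (-1) ^ n * I n + (4 * n + 6) * ((-1) ^ (n + 1) * I (n + 1)) := by
      rw [← h]
      ring
    rw [h1, ih.1, ih.2]
    show _ = Real.exp 1 * (((4 * (n : ℤ) + 6) * q (n + 1) + q n : ℤ) : ℝ) -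
      (((4 * (n : ℤ) + 6) * p (n + 1) + p n : ℤ) : ℝ)
    push_cast
    ring

theorem abs_eq (n : ℕ) : |Real.exp 1 * q n - p n| = I n := by
  rw [← (I_eq n).1, abs_mul, abs_pow, abs_neg, abs_one, one_pow, one_mul, abs_of_pos (I_pos n)]

theorem det_eq (n : ℕ) : p (n + 1) * q n - p n * q (n + 1) = 2 * (-1) ^ n := by
  induction n with
  | zero => decide
  | succ n ih =>
    show ((4 * (n : ℤ) + 6) * p (n + 1) + p n) * q (n + 1) -
      p (n + 1) * ((4 * (n : ℤ) + 6) * q (n + 1) + q n) = _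
    rw [pow_succ]
    linear_combination (-1) * ih

theorem q_pos (n : ℕ) : 1 ≤ q n ∧ 1 ≤ q (n + 1) := by
  induction n with
  | zero => decide
  | succ n ih =>
    refine ⟨ih.2, ?_⟩
    show 1 ≤ (4 * (n : ℤ) + 6) * q (n + 1) + q n
    have : (0 : ℤ) ≤ n := Int.natCast_nonneg n
    nlinarith [ih.1, ih.2]

theorem odd_pq (n : ℕ) : (Odd (p n) ∧ Odd (q n)) ∧ Odd (p (n + 1)) ∧ Odd (q (n + 1)) := by
  induction n with
  | zero => decide
  | succ n ih =>
    have h0 : Even (4 * (n : ℤ) + 6) := ⟨2 * n + 3, by ring⟩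
    refine ⟨ih.2, ?_, ?_⟩
    · show Odd ((4 * (n : ℤ) + 6) * p (n + 1) + p n)
      have h1 : Even ((4 * (n : ℤ) + 6) * p (n + 1)) :=
        Even.mul_right h0 _
      exact h1.add_odd ih.1.1
    · show Odd ((4 * (n : ℤ) + 6) * q (n + 1) + q n)
      have h1 : Even ((4 * (n : ℤ) + 6) * q (n + 1)) :=
        Even.mul_right h0 _
      exact h1.add_odd ih.1.2

theorem coprime_pq (n : ℕ) : IsCoprime (q n) (p n) := by
  have h := det_eq n
  rw [Int.isCoprime_iff_gcd_eq_one]
  have h1 : ((Int.gcd (q n) (p n) : ℕ) : ℤ) ∣ 2 * (-1) ^ n := by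
    rw [← h]
    exact dvd_sub (Dvd.dvd.mul_left (Int.gcd_dvd_left _ _) _)
      (Dvd.dvd.mul_right (Int.gcd_dvd_right _ _) _)
  have h2 : ((Int.gcd (q n) (p n) : ℕ) : ℤ) ∣ 2 := by
    have hu : IsUnit ((-1 : ℤ) ^ n) := (isUnit_one.neg).pow n
    exact hu.dvd_mul_right.1 h1
  have h3 : Int.gcd (q n) (p n) ∣ 2 := by exact_mod_cast h2
  rcases (Nat.dvd_prime Nat.prime_two).1 h3 with h4 | h4
  · exact h4
  · exfalso
    have h5 : (2 : ℤ) ∣ q n := by
      have := Int.gcd_dvd_left (a := q n) (b := p n)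
      rw [h4] at this
      exact_mod_cast this
    have h6 := (odd_pq n).1.2
    rw [← Int.not_even_iff_odd] at h6
    exact h6 (even_iff_two_dvd.2 h5)

/-- `q_{n+1} I_n + q_n I_{n+1} = 2` -/
theorem I_sum (n : ℕ) : (q (n + 1) : ℝ) * I n + q n * I (n + 1) = 2 := by
  have h1 := (I_eq n).1
  have h2 := (I_eq n).2
  have h3 : ((p (n + 1) * q n - p n * q (n + 1) : ℤ) : ℝ) = ((2 * (-1) ^ n : ℤ) : ℝ) := by rw [det_eq n]
  push_cast at h3
  have hs : ((-1 : ℝ) ^ n) * (-1) ^ n = 1 := by rw [← mul_pow]; norm_num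
  have h4 : (-1 : ℝ) ^ n * ((q (n + 1) : ℝ) * I n + q n * I (n + 1)) = (-1) ^ n * 2 := by
    have e1 : (-1 : ℝ) ^ n * ((q (n + 1) : ℝ) * I n + q n * I (n + 1)) =
        q (n + 1) * ((-1) ^ n * I n) - q n * ((-1) ^ (n + 1) * I (n + 1)) := by ring
    rw [e1, h1, h2]
    linarith
  have h5 := congrArg (fun t => (-1 : ℝ) ^ n * t) h4
  simp only [← mul_assoc, hs, one_mul] at h5
  exact h5

end TH456.CE
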