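import Mathlib
import Pool.Agent.Helper379.MahlerExp

set_option autoImplicit false

/-! Sharper bounds for Hermite's simultaneous approximations (the coefficient bound
`e^K M!` in place of `(2K)^M M!`), and the resulting sparsity theorem for the integers `x` with
`‖ξ e^x‖ ≤ e^{-cx}`, for every real `ξ ≠ 0`. -/

namespace TH456.HN

open Finset Polynomial Filter Nat MahlerExp

theorem SF_zero_bound' (m N K : ℕ) (hN : 1 ≤ N) (k : Fin (m + 1) → ℤ)
    (h0 : ∀ i, 0 ≤ k i) (hK : ∀ i, k i ≤ K) (j : Fin (m + 1)) :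
    |(SF (HF m N k j) 0 : ℝ)| ≤ Real.exp K * ((((m + 1) * N - 1)! : ℕ) : ℝ) := by
  classical
  have hMe : N - 1 + m * N = (m + 1) * N - 1 := by
    have : (m + 1) * N = m * N + N := by ring
    omega
  have hD : SZDom (HF m N k j) ((X + C (K : ℤ)) ^ ((m + 1) * N - 1)) := by
    have h2 := (((SZDom.lin (k j) K (h0 j) (hK j)).pow (N - 1))).mul
      (SZDom.prod (univ.erase j) (fun i => (X - C (k i)) ^ N) (fun _ => (X + C (K : ℤ)) ^ N)
        (fun i _ => (SZDom.lin (k i) K (h0 i) (hK i)).pow N))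
    have h3 : (X + C (K : ℤ)) ^ (N - 1) * ∏ _i ∈ univ.erase j, (X + C (K : ℤ)) ^ N
        = (X + C (K : ℤ)) ^ ((m + 1) * N - 1) := by
      rw [Finset.prod_const, Finset.card_erase_of_mem (Finset.mem_univ j), Finset.card_univ,
        Fintype.card_fin, ← pow_mul, ← pow_add]
      congr 1
      rw [← hMe]
      simp [mul_comm]
    rw [h3] at h2
    exact h2
  generalize hM : (m + 1) * N - 1 = M at hD ⊢
  generalize HF m N k j = F at hD ⊢
  have hGd : ((X + C (K : ℤ)) ^ M).natDegree ≤ M := by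
    rw [natDegree_pow, natDegree_X_add_C, mul_one]
  have hFd : F.natDegree ≤ M := by
    rw [natDegree_le_iff_coeff_eq_zero]
    intro l hl
    have h1 := hD l
    rw [coeff_eq_zero_of_natDegree_lt (lt_of_le_of_lt hGd hl)] at h1
    exact abs_nonpos_iff.1 h1
  have hS : SF F 0 = ∑ l ∈ range (M + 1), ((l ! : ℕ) : ℤ) * F.coeff l := by
    unfold SF
    rw [sumIDeriv_apply_of_le hFd, eval_finsetSum]
    refine Finset.sum_congr rfl fun l _ => ?_
    rw [← coeff_zero_eq_eval_zero, coeff_iterate_derivative, zero_add, Nat.descFactorial_self]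
    simp
  rw [hS]
  have hMf : (0 : ℝ) < ((M ! : ℕ) : ℝ) := by exact_mod_cast Nat.factorial_pos M
  have hterm : ∀ l ∈ range (M + 1), |(((l ! : ℕ) : ℤ) * F.coeff l : ℤ)| ≤
      ((l ! : ℕ) : ℤ) * ((K : ℤ) ^ (M - l) * (M.choose l : ℤ)) := by
    intro l _
    rw [abs_mul, abs_of_nonneg (by positivity)]
    apply mul_le_mul_of_nonneg_left _ (by positivity)
    have h1 := hD l
    rwa [coeff_X_add_C_pow] at h1
  have hsum : (|(∑ l ∈ range (M + 1), ((l ! : ℕ) : ℤ) * F.coeff l : ℤ)| : ℤ) ≤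
      ∑ l ∈ range (M + 1), ((l ! : ℕ) : ℤ) * ((K : ℤ) ^ (M - l) * (M.choose l : ℤ)) :=
    (Finset.abs_sum_le_sum_abs _ _).trans (Finset.sum_le_sum hterm)
  have hsumR : (|((∑ l ∈ range (M + 1), ((l ! : ℕ) : ℤ) * F.coeff l : ℤ) : ℝ)|) ≤
      ((∑ l ∈ range (M + 1), ((l ! : ℕ) : ℤ) * ((K : ℤ) ^ (M - l) * (M.choose l : ℤ)) : ℤ) : ℝ) := by
    rw [← Int.cast_abs]
    exact_mod_cast hsum
  refine hsumR.trans ?_
  push_cast
  have e1 : ∑ l ∈ range (M + 1), ((l ! : ℕ) : ℝ) * ((K : ℝ) ^ (M - l) * (M.choose l : ℝ)) =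
      ((M ! : ℕ) : ℝ) * ∑ l ∈ range (M + 1), (K : ℝ) ^ l / ((l ! : ℕ) : ℝ) := by
    rw [Finset.mul_sum, ← Finset.sum_range_reflect (fun l => ((M ! : ℕ) : ℝ) * ((K : ℝ) ^ l / ((l ! : ℕ) : ℝ)))]
    refine Finset.sum_congr rfl fun l hl => ?_
    have hl' : l ≤ M := Nat.lt_succ_iff.1 (Finset.mem_range.1 hl)
    have e2 : M + 1 - 1 - l = M - l := by omega
    rw [e2]
    have h2 := Nat.choose_mul_factorial_mul_factorial hl'
    have h3 : ((M.choose l : ℕ) : ℝ) * ((l ! : ℕ) : ℝ) * (((M - l)! : ℕ) : ℝ) = ((M ! : ℕ) : ℝ) := by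
      exact_mod_cast h2
    have h4 : (0 : ℝ) < (((M - l)! : ℕ) : ℝ) := by exact_mod_cast Nat.factorial_pos _
    rw [← h3]
    field_simp
  rw [e1, mul_comm (Real.exp _)]
  exact mul_le_mul_of_nonneg_left (Real.sum_le_exp_of_nonneg (Nat.cast_nonneg K) (M + 1)) hMf.le

theorem key' (m N K l : ℕ) (hm : 1 ≤ m) (hN : 1 ≤ N) (hK1 : 1 ≤ K) (hl : l.Prime) (hKl : K < l)
    (hlN : l ∣ N) (k : Fin (m + 1) → ℤ) (hinj : Function.Injective k) (hk0 : k 0 = 0)
    (h0 : ∀ i, 0 ≤ k i) (hK : ∀ i, k i ≤ K) (p : Fin (m + 1) → ℤ) (hp : p 0 ≠ 0) (d : ℝ)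
    (hd : ∀ i, |Real.exp (k i) * (p 0 : ℝ) - (p i : ℝ)| ≤ d) :
    1 ≤ ((m + 1)! : ℝ) *
      (|(p 0 : ℝ)| * (Real.exp K * (K : ℝ) ^ ((m + 1) * N - 1) / ((N - 1)! : ℝ)) ^ m
        + (Real.exp K * (((m + 1) * N - 1)! : ℝ) / ((N - 1)! : ℝ)) * d
          * (Real.exp K * (K : ℝ) ^ ((m + 1) * N - 1) / ((N - 1)! : ℝ)) ^ (m - 1)) := by
  obtain ⟨A, hA, hAe⟩ := exists_matrix m N K l hN hl hKl hlN k hinj h0 hK
  have hp0 : p ≠ 0 := by
    intro h
    apply hp
    rw [h]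
    rfl
  obtain ⟨j0, hj0⟩ := exists_updateRow m A hA p hp0
  have hd0 : 0 ≤ d := (abs_nonneg _).trans (hd 0)
  have hf : (0 : ℝ) < ((N - 1)! : ℝ) := by exact_mod_cast Nat.factorial_pos _
  have hKr : (0 : ℝ) ≤ (K : ℝ) := Nat.cast_nonneg _
  have hE : 0 ≤ Real.exp K * (K : ℝ) ^ ((m + 1) * N - 1) / ((N - 1)! : ℝ) := by positivity
  have hQ : 0 ≤ Real.exp K * (((m + 1) * N - 1)! : ℝ) / ((N - 1)! : ℝ) := by
    positivity
  have hrow : ∀ i, ((A.updateRow j0 p).map (fun x : ℤ => (x : ℝ))) j0 i = (p i : ℝ) := by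
    intro i
    rw [Matrix.map_apply, Matrix.updateRow_self]
  have hrow' : ∀ j, j ≠ j0 → ∀ i, ((A.updateRow j0 p).map (fun x : ℤ => (x : ℝ))) j i =
      (A j i : ℝ) := by
    intro j hj i
    rw [Matrix.map_apply, Matrix.updateRow_ne hj]
  have hAr : ∀ j i, ((N - 1)! : ℝ) * (A j i : ℝ) = (SF (HF m N k j) (k i) : ℝ) := by
    intro j i
    have := hAe j i
    rw [← this]
    push_cast
    ring
  have h := det_bound m hm ((A.updateRow j0 p).map (fun x : ℤ => (x : ℝ)))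
    (fun i => Real.exp (k i)) j0 |(p 0 : ℝ)| d
    (Real.exp K * (((m + 1) * N - 1)! : ℝ) / ((N - 1)! : ℝ))
    (Real.exp K * (K : ℝ) ^ ((m + 1) * N - 1) / ((N - 1)! : ℝ)) (abs_nonneg _) hd0 hQ hE
    (by rw [hrow]) (by
      intro i _
      rw [hrow, hrow]
      exact hd i) (by
      intro j hj
      rw [hrow' j hj, le_div_iff₀ hf]
      have h2 := SF_zero_bound' m N K hN k h0 hK j
      have h4 := hAr j 0
      rw [hk0] at h4
      rw [← h4, abs_mul, abs_of_pos hf] at h2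
      linarith) (by
      intro j hj i _
      rw [hrow' j hj, hrow' j hj, le_div_iff₀ hf]
      have h1 := HF_diff m N K hK1 hN k h0 hK i j
      have h4 := hAr j 0
      rw [hk0] at h4
      rw [← h4, ← hAr j i] at h1
      have h5 : Real.exp (k i) * (((N - 1)! : ℝ) * (A j 0 : ℝ)) - ((N - 1)! : ℝ) * (A j i : ℝ) =
          ((N - 1)! : ℝ) * (Real.exp (k i) * (A j 0 : ℝ) - (A j i : ℝ)) := by ring
      rw [h5, abs_mul, abs_of_pos hf] at h1
      show |Real.exp (k i) * (A j 0 : ℝ) - (A j i : ℝ)| * ((N - 1)! : ℝ) ≤ _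
      linarith)
  refine le_trans ?_ h
  have h1 : ((A.updateRow j0 p).map (fun x : ℤ => (x : ℝ))).det =
      (((A.updateRow j0 p).det : ℤ) : ℝ) := (Int.cast_det _).symm
  rw [h1, ← Int.cast_abs]
  exact_mod_cast Int.one_le_abs hj0

theorem asym_log' (G : ℝ) (m : ℕ) (c κ : ℝ) (hm : 1 ≤ m) (hc : 0 < c) (hκ0 : 0 < κ)
    (hκ : κ * ((m + 1) * (m - 1 + c * m)) < c * m - 1) :
    ∀ᶠ n : ℕ in atTop, ∀ K l : ℕ, 1 ≤ K → (K : ℝ) ≤ (n : ℝ) ^ κ →
      1 ≤ l → l ≤ 2 * K → ∃ N : ℕ, 1 ≤ N ∧ l ∣ N ∧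
        Real.log G + n
          + m * (K + (((m + 1) * N - 1 : ℕ) : ℝ) * Real.log K - Real.log ((N - 1)! : ℝ)) < 0 ∧
        Real.log G + K
          + Real.log (((m + 1) * N - 1)! : ℝ) + K - c * n
          + ((m : ℝ) - 1) * (K + (((m + 1) * N - 1 : ℕ) : ℝ) * Real.log K)
          - m * Real.log ((N - 1)! : ℝ) < 0 := by
  have hm0 : (1 : ℝ) ≤ m := by exact_mod_cast hm
  have hmpos : (0 : ℝ) < m := by linarith
  obtain ⟨x, hx⟩ : ∃ x : ℝ, x = m * (m + 1) * κ := ⟨_, rfl⟩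
  obtain ⟨y, hy⟩ : ∃ y : ℝ, y = (m - 1) * (m + 1) * κ := ⟨_, rfl⟩
  have hx0 : 0 < x := by
    rw [hx]
    positivity
  have hy0 : 0 ≤ y := by
    rw [hy]
    have : (0 : ℝ) ≤ m - 1 := by linarith
    positivity
  have hyx : y ≤ x := by
    rw [hx, hy]
    have : 0 ≤ (m + 1) * κ := by positivity
    nlinarith
  have hxc : 1 + y < c * (m - x) := by
    rw [hx, hy]
    nlinarith
  have hmx : 0 < (m : ℝ) - x := by
    by_contra hcon
    have h1 : c * ((m : ℝ) - x) ≤ 0 := mul_nonpos_of_nonneg_of_nonpos hc.le (by linarith)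
    linarith
  have hκ1 : κ < 1 := by
    have h1 : κ * (m * (m + 1)) < m := by
      have : κ * (m * (m + 1)) = x := by rw [hx]; ring
      linarith
    by_contra hcon
    have h2 : (1 : ℝ) * (m * (m + 1)) ≤ κ * (m * (m + 1)) :=
      mul_le_mul_of_nonneg_right (by linarith) (by positivity)
    nlinarith
  have hlt : 1 / ((m : ℝ) - x) < c / (1 + y) := by
    rw [div_lt_div_iff₀ hmx (by linarith)]
    nlinarith
  obtain ⟨θ, hθ1, hθ2⟩ := exists_between hlt
  have hθ0 : 0 < θ := lt_trans (by positivity) hθ1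
  have hg1 : 0 < (m - x) * θ - 1 := by
    rw [div_lt_iff₀ hmx] at hθ1
    linarith
  have hg2 : 0 < c - (1 + y) * θ := by
    rw [lt_div_iff₀ (by linarith)] at hθ2
    linarith
  obtain ⟨g, hg0, hgA, hgB⟩ : ∃ g : ℝ, 0 < g ∧ g ≤ (m - x) * θ - 1 ∧ g ≤ c - (1 + y) * θ :=
    ⟨min ((m - x) * θ - 1) (c - (1 + y) * θ), lt_min hg1 hg2, min_le_left _ _, min_le_right _ _⟩
  obtain ⟨η, hη0, hη1, hηg⟩ : ∃ η : ℝ, 0 < η ∧ η ≤ 1 ∧ (2 * m + 4 + x) * η ≤ g / 2 := by
    refine ⟨min 1 (g / 2 / (2 * m + 4 + x)), lt_min one_pos (by positivity), min_le_left _ _, ?_⟩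
    have h : (0 : ℝ) < 2 * m + 4 + x := by positivity
    calc (2 * m + 4 + x) * min 1 (g / 2 / (2 * m + 4 + x))
          ≤ (2 * m + 4 + x) * (g / 2 / (2 * m + 4 + x)) :=
          mul_le_mul_of_nonneg_left (min_le_right _ _) h.le
      _ = g / 2 := mul_div_cancel₀ _ h.ne'
  have E1 : ∀ᶠ n : ℕ in atTop, Real.log G ≤ η * n :=
    ((tendsto_natCast_atTop_atTop (R := ℝ)).const_mul_atTop hη0).eventually_ge_atTop _
  have E2 : ∀ᶠ n : ℕ in atTop, (n : ℝ) ^ κ ≤ η * n := by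
    have h1 := (tendsto_rpow_neg_atTop (by linarith : 0 < 1 - κ)).comp
      (tendsto_natCast_atTop_atTop (R := ℝ))
    have h2 := h1.eventually_le_const hη0
    filter_upwards [h2, eventually_ge_atTop 1] with n hn hn1
    have hn0 : (0 : ℝ) < n := by exact_mod_cast hn1
    have h3 : (n : ℝ) ^ κ = n ^ (-(1 - κ)) * n := by
      have h4 := Real.rpow_add hn0 (-(1 - κ)) 1
      rw [Real.rpow_one] at h4
      rw [← h4]
      congr 1
      ring
    rw [h3]
    exact mul_le_mul_of_nonneg_right hn hn0.le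
  have E4 := asym_N θ η κ hθ0 hη0 hκ0 hκ1
  have E5 := fact_lower (θ + 1) η (by linarith) hη0
  have E6 := fact_upper m (θ + 1) η (by linarith) hη0
  filter_upwards [E1, E2, E4, E5, E6, eventually_ge_atTop 2] with n e1 e2 e4 e5 e6 e7
  intro K l hK hKn hl hlK
  have hn0 : (0 : ℝ) < n := by
    have : 0 < n := by omega
    exact_mod_cast this
  have hKr : (1 : ℝ) ≤ K := by exact_mod_cast hK
  obtain ⟨N, hN1, hlN, hNl, hNu⟩ := e4 l hl (by
    have h1 : (l : ℝ) ≤ 2 * K := by exact_mod_cast hlK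
    linarith)
  refine ⟨N, hN1, hlN, ?_⟩
  have hNr : (1 : ℝ) ≤ N := by exact_mod_cast hN1
  have hX : (N : ℝ) * Real.log n ≤ (θ + 1) * n := by
    refine le_trans hNu ?_
    exact mul_le_mul_of_nonneg_right (by linarith) hn0.le
  have f5 := e5 N hN1 hX
  have f6 := e6 N hN1 hX
  have hM : (((m + 1) * N - 1 : ℕ) : ℝ) ≤ (m + 1) * N := by
    have h1 : (((m + 1) * N - 1 : ℕ) : ℝ) ≤ (((m + 1) * N : ℕ) : ℝ) := by
      exact_mod_cast Nat.sub_le _ _
    refine le_trans h1 ?_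
    push_cast
    exact le_rfl
  have hM0 : (0 : ℝ) ≤ (((m + 1) * N - 1 : ℕ) : ℝ) := Nat.cast_nonneg _
  generalize (((m + 1) * N - 1 : ℕ) : ℝ) = M at hM hM0 ⊢
  have hlK0 : 0 ≤ Real.log K := Real.log_nonneg hKr
  have hlogK : Real.log K ≤ κ * Real.log n := by
    have h1 := Real.log_le_log (by linarith) hKn
    rwa [Real.log_rpow hn0] at h1
  have hKη : (K : ℝ) ≤ η * n := le_trans hKn e2
  -- the product M log K
  have hMK : M * Real.log K ≤ (m + 1) * κ * ((θ + η) * n) := by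
    calc M * Real.log K ≤ ((m + 1) * N) * (κ * Real.log n) :=
          mul_le_mul hM hlogK hlK0 (by positivity)
      _ = (m + 1) * κ * (N * Real.log n) := by ring
      _ ≤ (m + 1) * κ * ((θ + η) * n) := mul_le_mul_of_nonneg_left hNu (by positivity)
  have hκn : m * ((m + 1) * κ * ((θ + η) * n)) = x * (θ * n) + x * (η * n) := by
    rw [hx]
    ring
  have hκn' : (m - 1) * ((m + 1) * κ * ((θ + η) * n)) = y * (θ * n) + y * (η * n) := by
    rw [hy]
    ring
  have hηn : (2 * m + 4 + x) * (η * n) ≤ g / 2 * n := by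
    calc (2 * m + 4 + x) * (η * n) = ((2 * m + 4 + x) * η) * n := by ring
      _ ≤ g / 2 * n := mul_le_mul_of_nonneg_right hηg hn0.le
  have hgAn : g * n ≤ m * (θ * n) - x * (θ * n) - n := by
    have := mul_le_mul_of_nonneg_right hgA hn0.le
    linarith
  have hgBn : g * n ≤ c * n - θ * n - y * (θ * n) := by
    have := mul_le_mul_of_nonneg_right hgB hn0.le
    linarith
  have hgn : 0 < g * n := mul_pos hg0 hn0
  have hηn0 : 0 < η * n := mul_pos hη0 hn0
  constructor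
  · have h1 : m * (K + M * Real.log K - Real.log ((N - 1)! : ℝ)) ≤
        m * (η * n + (m + 1) * κ * ((θ + η) * n) - (θ * n - η * n)) := by
      refine mul_le_mul_of_nonneg_left ?_ hmpos.le
      linarith
    have h2 : (m : ℝ) * (η * n + (m + 1) * κ * ((θ + η) * n) - (θ * n - η * n)) =
        2 * m * (η * n) + m * ((m + 1) * κ * ((θ + η) * n)) - m * (θ * n) := by ring
    have h3 : (2 * (m : ℝ) + 4 + x) * (η * n) = 2 * m * (η * n) + 4 * (η * n) + x * (η * n) := by ring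
    have hxη : 0 < x * (η * n) := by positivity
    linarith
  · have h1 : ((m : ℝ) - 1) * (K + M * Real.log K) ≤
        (m - 1) * (η * n + (m + 1) * κ * ((θ + η) * n)) := by
      refine mul_le_mul_of_nonneg_left ?_ (by linarith)
      linarith
    have h2 : (m : ℝ) * (N * Real.log n - η * n) ≤ m * Real.log ((N - 1)! : ℝ) :=
      mul_le_mul_of_nonneg_left f5 hmpos.le
    have h3 : (2 * (m : ℝ) + 4 + x) * (η * n) = 2 * m * (η * n) + 4 * (η * n) + x * (η * n) := by ring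
    have hxη : 0 < x * (η * n) := by positivity
    have hyη : y * (η * n) ≤ x * (η * n) := mul_le_mul_of_nonneg_right hyx hηn0.le
    have h4 : ((m : ℝ) - 1) * (η * n + (m + 1) * κ * ((θ + η) * n)) =
      m * (η * n) - η * n + (m - 1) * ((m + 1) * κ * ((θ + η) * n)) := by
      ring
    have h5 : (m : ℝ) * (N * Real.log n - η * n) = m * (N * Real.log n) - m * (η * n) := by ring
    have h6 : ((m : ℝ) + 1) * (N * Real.log n) = m * (N * Real.log n) + N * Real.log n := by ring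
    have h7 : (θ + η) * n = θ * n + η * n := by ring
    have h9 : 2 * (m : ℝ) * (η * n) = 2 * (m * (η * n)) := by ring
    linarith

theorem asym' (C₀ : ℝ) (hC₀ : 0 < C₀) (m : ℕ) (c κ : ℝ) (hm : 1 ≤ m) (hc : 0 < c) (hκ0 : 0 < κ)
    (hκ : κ * ((m + 1) * (m - 1 + c * m)) < c * m - 1) :
    ∀ᶠ n : ℕ in atTop, ∀ K l : ℕ, 1 ≤ K → (K : ℝ) ≤ (n : ℝ) ^ κ →
      1 ≤ l → l ≤ 2 * K → ∃ N : ℕ, 1 ≤ N ∧ l ∣ N ∧
        ((m + 1)! : ℝ) *
          ((C₀ * Real.exp n) * (Real.exp K * (K : ℝ) ^ ((m + 1) * N - 1) / ((N - 1)! : ℝ)) ^ m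
            + (Real.exp K * (((m + 1) * N - 1)! : ℝ) / ((N - 1)! : ℝ))
              * (2 * Real.exp K * Real.exp (-(c * n)))
              * (Real.exp K * (K : ℝ) ^ ((m + 1) * N - 1) / ((N - 1)! : ℝ)) ^ (m - 1)) < 1 := by
  have hD : (0:ℝ) < ((m + 1)! : ℝ) := by exact_mod_cast Nat.factorial_pos _
  refine (asym_log' (4 * (C₀ + 2) * ((m + 1)! : ℝ)) m c κ hm hc hκ0 hκ).mono ?_
  intro n hn K l hK hKn hl hl2
  obtain ⟨N, hN, hlN, ha, hb⟩ := hn K l hK hKn hl hl2
  refine ⟨N, hN, hlN, ?_⟩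
  set M : ℕ := (m + 1) * N - 1 with hM
  have hK0 : (0:ℝ) < K := by exact_mod_cast hK
  have hf : (0:ℝ) < ((N - 1)! : ℝ) := by exact_mod_cast Nat.factorial_pos _
  have hMf : (0:ℝ) < (M ! : ℝ) := by exact_mod_cast Nat.factorial_pos _
  set f : ℝ := ((N - 1)! : ℝ) with hfdef
  set D : ℝ := ((m + 1)! : ℝ) with hDdef
  set G : ℝ := 4 * (C₀ + 2) * D with hG
  have hG0 : 0 < G := by positivity
  set X : ℝ := Real.exp K * (K : ℝ) ^ M / f with hX
  have hX0 : 0 < X := by positivity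
  have hXe : X = Real.exp (K + (M : ℝ) * Real.log K - Real.log f) := by
    rw [Real.exp_sub, Real.exp_add, Real.exp_log hf, Real.exp_nat_mul, Real.exp_log hK0]
  have e1 : G * Real.exp n * X ^ m < 1 := by
    have h3 : G * Real.exp n * X ^ m = Real.exp (Real.log G + n
          + m * (K + (M : ℝ) * Real.log K - Real.log f)) := by
      rw [Real.exp_add, Real.exp_add, Real.exp_log (by positivity), Real.exp_nat_mul, ← hXe]
    rw [h3, Real.exp_lt_one_iff]
    exact ha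
  have hm1 : ((m - 1 : ℕ) : ℝ) = (m : ℝ) - 1 := by
    rw [Nat.cast_sub hm, Nat.cast_one]
  have e2 : G * (Real.exp K * (M ! : ℝ) / f) * (Real.exp K * Real.exp (-(c * n))) * X ^ (m - 1) < 1 := by
    have h3 : G * (Real.exp K * (M ! : ℝ) / f) * (Real.exp K * Real.exp (-(c * n))) * X ^ (m - 1)
        = Real.exp (Real.log G + ((K + Real.log (M ! : ℝ)) - Real.log f)
          + (K + (-(c * n))) + ((m - 1 : ℕ) : ℝ) * (K + (M : ℝ) * Real.log K - Real.log f)) := by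
      rw [Real.exp_add, Real.exp_add, Real.exp_add, Real.exp_log hG0, Real.exp_sub,
        Real.exp_add, Real.exp_log hf, Real.exp_log hMf,
        Real.exp_nat_mul, ← hXe, Real.exp_add (K : ℝ) (-(c * n))]
    rw [h3, Real.exp_lt_one_iff]
    rw [hm1]
    refine lt_of_eq_of_lt ?_ hb
    ring
  set Y : ℝ := (Real.exp K * (M ! : ℝ) / f) * (Real.exp K * Real.exp (-(c * n))) * X ^ (m - 1) with hY
  have hY0 : 0 < Y := by positivity
  have hZ0 : 0 < Real.exp n * X ^ m := by positivity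
  have e2' : G * Y < 1 := by
    refine lt_of_eq_of_lt ?_ e2
    rw [hY]
    ring
  have h4 : D * ((C₀ * Real.exp n) * X ^ m + (Real.exp K * (M ! : ℝ) / f)
      * (2 * Real.exp K * Real.exp (-(c * n))) * X ^ (m - 1)) =
      D * C₀ * (Real.exp n * X ^ m) + D * 2 * Y := by
    rw [hY]
    ring
  rw [h4]
  have h5 : D * C₀ * (Real.exp n * X ^ m) ≤ 1 / 4 := by
    have h6 : 4 * (D * C₀ * (Real.exp n * X ^ m)) ≤ G * (Real.exp n * X ^ m) := by
      rw [hG, ← mul_assoc]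
      apply mul_le_mul_of_nonneg_right _ hZ0.le
      nlinarith
    have h7 : G * (Real.exp n * X ^ m) < 1 := by rw [← mul_assoc]; exact e1
    linarith
  have h8 : D * 2 * Y ≤ 1 / 4 := by
    have h6 : 4 * (D * 2 * Y) ≤ G * Y := by
      rw [hG, ← mul_assoc]
      apply mul_le_mul_of_nonneg_right _ hY0.le
      nlinarith [mul_pos hD hC₀]
    linarith
  linarith

/-- The integers `x` with `‖ξ e^x‖ ≤ e^{-cx}` are sparse. -/
theorem window' (ξ : ℝ) (hξ : ξ ≠ 0) (m : ℕ) (c κ : ℝ) (hm : 1 ≤ m) (hc0 : 0 < c) (hκ0 : 0 < κ)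
    (hκ : κ * ((m + 1) * (m - 1 + c * m)) < c * m - 1) :
    ∃ n₀ : ℕ, ∀ n : ℕ, n₀ ≤ n →
      ((Icc n (n + ⌊(n : ℝ) ^ κ⌋₊)).filter
        (fun x : ℕ => |ξ * Real.exp x - round (ξ * Real.exp x)| ≤ Real.exp (-(c * x)))).card ≤ m := by
  have hξ0 : 0 < |ξ| := abs_pos.mpr hξ
  have hev := asym' (|ξ| + 1) (by positivity) m c κ hm hc0 hκ0 hκ
  have hbig : ∀ᶠ n : ℕ in atTop, 1 / |ξ| ≤ Real.exp n :=
    (Real.tendsto_exp_atTop.comp (tendsto_natCast_atTop_atTop (R := ℝ))).eventually_ge_atTop _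
  obtain ⟨n1, hn1⟩ := eventually_atTop.1 (hev.and hbig)
  refine ⟨max n1 1, fun n hn => ?_⟩
  have hn1' : n1 ≤ n := (le_max_left _ _).trans hn
  have hn1'' : 1 ≤ n := (le_max_right _ _).trans hn
  by_contra hcon
  push Not at hcon
  set K := ⌊(n : ℝ) ^ κ⌋₊ with hKdef
  obtain ⟨T, hTS, hT⟩ := Finset.exists_subset_card_eq (Nat.succ_le_of_lt hcon)
  let x : Fin (m + 1) ↪o ℕ := T.orderEmbOfFin hT
  have hx : ∀ i, (n ≤ x i ∧ x i ≤ n + K) ∧
      |ξ * Real.exp (x i) - round (ξ * Real.exp (x i))| ≤ Real.exp (-(c * (x i : ℕ))) := by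
    intro i
    have h1 := hTS (T.orderEmbOfFin_mem hT i)
    rw [Finset.mem_filter, Finset.mem_Icc] at h1
    exact h1
  have hnr : (1 : ℝ) ≤ n := by exact_mod_cast hn1''
  have hpow1 : (1 : ℝ) ≤ (n : ℝ) ^ κ := Real.one_le_rpow hnr hκ0.le
  have hK1 : 1 ≤ K := Nat.le_floor (by exact_mod_cast hpow1)
  have hKle : (K : ℝ) ≤ (n : ℝ) ^ κ := Nat.floor_le (by linarith)
  set b := x 0 with hb
  have hbn : n ≤ b := (hx 0).1.1
  have hb1 : 1 ≤ b := hn1''.trans hbn
  have hbr : (n : ℝ) ≤ b := by exact_mod_cast hbn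
  have hKb : (K : ℝ) ≤ (b : ℝ) ^ κ :=
    hKle.trans (Real.rpow_le_rpow (by positivity) hbr hκ0.le)
  obtain ⟨l, hl, hKl, hl2⟩ := Nat.exists_prime_lt_and_le_two_mul K (by omega)
  obtain ⟨N, hN, hlN, hlt⟩ := (hn1 b (hn1'.trans hbn)).1 K l hK1 hKb hl.one_lt.le hl2
  have hbbig : 1 ≤ |ξ| * Real.exp b := by
    have := (hn1 b (hn1'.trans hbn)).2
    rw [div_le_iff₀ hξ0] at this
    linarith
  have hmono : ∀ i, b ≤ x i := fun i => x.monotone (Fin.zero_le i)
  have hkK : ∀ i, x i - b ≤ K := by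
    intro i
    have := (hx i).1.2
    omega
  have hround0 : round (ξ * Real.exp b) ≠ 0 := by
    intro h0
    have h4 := abs_sub_round (ξ * Real.exp b)
    rw [h0, Int.cast_zero, sub_zero, abs_mul, abs_of_pos (Real.exp_pos _)] at h4
    linarith
  have hroundle : |((round (ξ * Real.exp b) : ℤ) : ℝ)| ≤ (|ξ| + 1) * Real.exp b := by
    have h4 := abs_sub_round (ξ * Real.exp b)
    have h5 : |((round (ξ * Real.exp b) : ℤ) : ℝ)| ≤ |ξ * Real.exp b| + 1 / 2 := by
      have h6 := abs_sub_abs_le_abs_sub ((round (ξ * Real.exp b) : ℤ) : ℝ) (ξ * Real.exp b)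
      rw [abs_sub_comm] at h6
      linarith
    rw [abs_mul, abs_of_pos (Real.exp_pos _)] at h5
    have h7 : (1 : ℝ) ≤ Real.exp b := Real.one_le_exp (by positivity)
    nlinarith
  have hkey := key' m N K l hm hN hK1 hl hKl hlN (fun i => ((x i - b : ℕ) : ℤ)) (by
      intro i j hij
      have h1 : x i - b = x j - b := Int.ofNat.inj hij
      have h2 := hmono i
      have h3 := hmono j
      have h4 : x i = x j := by omega
      exact x.injective h4) (by simp [hb]) (fun i => Int.natCast_nonneg _)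
    (fun i => by exact_mod_cast hkK i) (fun i => round (ξ * Real.exp (x i)))
    hround0 (2 * Real.exp K * Real.exp (-(c * b))) (by
      intro i
      have e : b + (x i - b) = x i := Nat.add_sub_of_le (hmono i)
      have e0 : Real.exp (x i : ℕ) = Real.exp ((x i - b : ℕ) : ℝ) * Real.exp b := by
        rw [← Real.exp_add]
        congr 1
        have : ((x i : ℕ) : ℝ) = ((b + (x i - b) : ℕ) : ℝ) := by rw [e]
        rw [this]
        push_cast
        ring
      have hkc : Real.exp ((x i - b : ℕ) : ℝ) ≤ Real.exp K :=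
        Real.exp_le_exp.2 (by exact_mod_cast hkK i)
      have hk0 : 0 < Real.exp ((x i - b : ℕ) : ℝ) := Real.exp_pos _
      have hEi : Real.exp (-(c * (x i : ℕ))) ≤ Real.exp (-(c * b)) := by
        apply Real.exp_le_exp.2
        have h1 : (b : ℝ) ≤ (x i : ℕ) := by exact_mod_cast hmono i
        nlinarith
      have hE : 0 < Real.exp (-(c * b)) := Real.exp_pos _
      have h1 : (1 : ℝ) ≤ Real.exp (K : ℝ) := Real.one_le_exp (by positivity)
      have h2 := (hx 0).2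
      have h3 := (hx i).2
      rw [Int.cast_natCast]
      set r0 : ℝ := (round (ξ * Real.exp b) : ℝ) with hr0
      show |Real.exp ((x i - b : ℕ) : ℝ) * r0 - (round (ξ * Real.exp (x i)) : ℝ)| ≤ _
      set ri : ℝ := (round (ξ * Real.exp (x i)) : ℝ) with hri
      have h4 : Real.exp ((x i - b : ℕ) : ℝ) * r0 - ri =
          -(Real.exp ((x i - b : ℕ) : ℝ) * (ξ * Real.exp b - r0)) + (ξ * Real.exp (x i) - ri) := by
        rw [e0]
        ring
      rw [h4]
      calc _ ≤ |-(Real.exp ((x i - b : ℕ) : ℝ) * (ξ * Real.exp b - r0))| + |ξ * Real.exp (x i) - ri| :=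
            abs_add_le _ _
        _ = Real.exp ((x i - b : ℕ) : ℝ) * |ξ * Real.exp b - r0| + |ξ * Real.exp (x i) - ri| := by
            rw [abs_neg, abs_mul, abs_of_pos hk0]
        _ ≤ Real.exp K * Real.exp (-(c * b)) + Real.exp K * Real.exp (-(c * b)) := by
            apply _root_.add_le_add
            · exact mul_le_mul hkc h2 (abs_nonneg _) (by positivity)
            · refine (h3.trans hEi).trans ?_
              exact le_mul_of_one_le_left hE.le h1
        _ = 2 * Real.exp K * Real.exp (-(c * b)) := by ring)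
  have hA : 0 ≤ (Real.exp K * (K : ℝ) ^ ((m + 1) * N - 1) / ((N - 1)! : ℝ)) ^ m := by positivity
  have hf : (0 : ℝ) ≤ ((m + 1)! : ℝ) := by positivity
  have h5 := mul_le_mul_of_nonneg_left (add_le_add_left (mul_le_mul_of_nonneg_right hroundle hA)
    ((Real.exp K * (((m + 1) * N - 1)! : ℝ) / ((N - 1)! : ℝ))
              * (2 * Real.exp K * Real.exp (-(c * b)))
              * (Real.exp K * (K : ℝ) ^ ((m + 1) * N - 1) / ((N - 1)! : ℝ)) ^ (m - 1))) hf
  have h6 := lt_of_le_of_lt (hkey.trans h5) hlt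
  exact lt_irrefl _ h6

end TH456.HN
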