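import Mathlib
import Pool.Agent.TH456.HN.Herm

set_option autoImplicit false

/-! Second-order bounds for the harmonic numbers and the thresholds `n_k`. -/

namespace TH456.HN

open Filter Topology

/-- `u n = H_n - log (n + 1/2)` -/
noncomputable def u (n : ℕ) : ℝ := ((harmonic n : ℚ) : ℝ) - Real.log ((n : ℝ) + 1 / 2)

theorem log_excess (n : ℕ) :
    1 / ((n : ℝ) + 1) < Real.log ((n : ℝ) + 1 + 1 / 2) - Real.log ((n : ℝ) + 1 / 2) ∧
    Real.log ((n : ℝ) + 1 + 1 / 2) - Real.log ((n : ℝ) + 1 / 2) ≤ 1 / ((n : ℝ) + 1)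
      + 1 / (3 * ((n : ℝ) + 1) * (2 * n + 1) * (2 * n + 3)) := by
  have hn : (0 : ℝ) ≤ n := Nat.cast_nonneg n
  have ha : (0 : ℝ) < (n : ℝ) + 1 / 2 := by positivity
  have hlog : Real.log ((n : ℝ) + 1 + 1 / 2) - Real.log ((n : ℝ) + 1 / 2) =
      Real.log (1 + ((n : ℝ) + 1 / 2)⁻¹) := by
    rw [← Real.log_div (by positivity) (by positivity)]
    congr 1
    field_simp
    ring
  rw [hlog]
  have hs := Real.hasSum_log_one_add_inv ha
  obtain ⟨t, ht⟩ : ∃ t : ℝ, t = 1 / (2 * ((n : ℝ) + 1 / 2) + 1) := ⟨_, rfl⟩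
  rw [← ht] at hs
  have ht' : t = 1 / (2 * ((n : ℝ) + 1)) := by rw [ht]; congr 1; ring
  have ht0 : 0 < t := by rw [ht']; positivity
  have ht1 : t ≤ 1 / 2 := by
    rw [ht']
    apply one_div_le_one_div_of_le (by norm_num)
    linarith
  have h2t : 2 * t = 1 / ((n : ℝ) + 1) := by
    rw [ht']
    field_simp
  have hterm : ∀ k : ℕ, 0 < (2 : ℝ) * (1 / (2 * k + 1)) * t ^ (2 * k + 1) := by
    intro k; positivity
  constructor
  · have h1 := hs.summable.sum_le_tsum (Finset.range 2) (fun k _ => (hterm k).le)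
    rw [hs.tsum_eq, Finset.sum_range_succ, Finset.sum_range_one] at h1
    have h2 := hterm 1
    have h3 : (2 : ℝ) * (1 / (2 * ((0 : ℕ) : ℝ) + 1)) * t ^ (2 * 0 + 1) = 1 / ((n : ℝ) + 1) := by
      rw [← h2t]
      norm_num
    rw [h3] at h1
    linarith
  · have hg : HasSum (fun k : ℕ => (2 / 3 * t ^ 3) * (t ^ 2) ^ k) ((2 / 3 * t ^ 3) * (1 - t ^ 2)⁻¹) :=
      (hasSum_geometric_of_lt_one (by positivity) (by nlinarith)).mul_left _
    have hs' := (hasSum_nat_add_iff' (f := fun k : ℕ => (2 : ℝ) * (1 / (2 * (k : ℝ) + 1)) * t ^ (2 * k + 1)) 1).2 hs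
    rw [Finset.sum_range_one] at hs'
    have h3 : (2 : ℝ) * (1 / (2 * ((0 : ℕ) : ℝ) + 1)) * t ^ (2 * 0 + 1) = 1 / ((n : ℝ) + 1) := by
      rw [← h2t]
      norm_num
    rw [h3] at hs'
    have h4 := hasSum_le (fun k => by
      show (2 : ℝ) * (1 / (2 * ((k + 1 : ℕ) : ℝ) + 1)) * t ^ (2 * (k + 1) + 1) ≤
        (2 / 3 * t ^ 3) * (t ^ 2) ^ k
      have e1 : t ^ (2 * (k + 1) + 1) = t ^ 3 * (t ^ 2) ^ k := by
        rw [← pow_mul, ← pow_add]
        congr 1
        ring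
      rw [e1]
      have e2 : (2 : ℝ) * (1 / (2 * ((k + 1 : ℕ) : ℝ) + 1)) ≤ 2 / 3 := by
        rw [mul_one_div]
        apply div_le_div_of_nonneg_left (by norm_num) (by norm_num)
        push_cast
        have : (0 : ℝ) ≤ k := Nat.cast_nonneg k
        linarith
      calc (2 : ℝ) * (1 / (2 * ((k + 1 : ℕ) : ℝ) + 1)) * (t ^ 3 * (t ^ 2) ^ k)
          ≤ 2 / 3 * (t ^ 3 * (t ^ 2) ^ k) := mul_le_mul_of_nonneg_right e2 (by positivity)
        _ = _ := by ring) hs' hg
    have h5 : (2 / 3 * t ^ 3) * (1 - t ^ 2)⁻¹ = 1 / (3 * ((n : ℝ) + 1) * (2 * n + 1) * (2 * n + 3)) := by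
      rw [ht']
      have h6 : (1 - (1 / (2 * ((n : ℝ) + 1))) ^ 2) = (2 * n + 1) * (2 * n + 3) / (2 * ((n : ℝ) + 1)) ^ 2 := by
        field_simp
        ring
      rw [h6, inv_div]
      field_simp
    rw [h5] at h4
    linarith

theorem harmonic_succ_real (n : ℕ) :
    ((harmonic (n + 1) : ℚ) : ℝ) = ((harmonic n : ℚ) : ℝ) + 1 / ((n : ℝ) + 1) := by
  rw [harmonic_succ]
  push_cast
  rw [one_div]

theorem u_tendsto : Tendsto u atTop (𝓝 Real.eulerMascheroniConstant) := by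
  have h1 := Real.tendsto_harmonic_sub_log
  have h2 : Tendsto (fun n : ℕ => Real.log ((n : ℝ) + 1 / 2) - Real.log n) atTop (𝓝 0) := by
    have h3 : Tendsto (fun n : ℕ => Real.log (1 + (1 / 2) / (n : ℝ))) atTop (𝓝 (Real.log (1 + 0))) := by
      apply (Real.continuousAt_log (by norm_num)).tendsto.comp
      exact (tendsto_const_div_atTop_nhds_zero_nat (1 / 2)).const_add 1
    rw [add_zero, Real.log_one] at h3
    refine h3.congr' ?_
    filter_upwards [eventually_ge_atTop 1] with n hn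
    have hn0 : (0 : ℝ) < n := by exact_mod_cast hn
    rw [← Real.log_div (by positivity) (by positivity)]
    congr 1
    field_simp
  have h3 := h1.sub h2
  rw [sub_zero] at h3
  refine h3.congr (fun n => ?_)
  unfold u
  ring

theorem gamma_lt_u (n : ℕ) : Real.eulerMascheroniConstant < u n := by
  have hanti : StrictAnti u := by
    apply strictAnti_nat_of_succ_lt
    intro n
    unfold u
    rw [harmonic_succ_real]
    have := (log_excess n).1
    push_cast
    linarith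
  have h1 : ∀ m, Real.eulerMascheroniConstant ≤ u m := fun m =>
    hanti.antitone.le_of_tendsto u_tendsto m
  exact lt_of_le_of_lt (h1 (n + 1)) (hanti (Nat.lt_succ_self n))

theorem u_le (n : ℕ) (hn : 1 ≤ n) :
    u n ≤ Real.eulerMascheroniConstant + 1 / (24 * (n : ℝ) * (n + 1)) := by
  obtain ⟨w, hw⟩ : ∃ w : ℕ → ℝ, w = fun j => u (j + 1) - 1 / (24 * ((j : ℝ) + 1) * (j + 2)) := ⟨_, rfl⟩
  have hmono : Monotone w := by
    apply monotone_nat_of_le_succ
    intro j
    rw [hw]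
    have hj : (0 : ℝ) ≤ j := Nat.cast_nonneg j
    have h1 := (log_excess (j + 1)).2
    unfold u
    simp only
    rw [harmonic_succ_real (j + 1)]
    push_cast at h1 ⊢
    have h2 : 1 / (3 * ((j : ℝ) + 1 + 1) * (2 * (j + 1) + 1) * (2 * (j + 1) + 3)) ≤
        1 / (24 * ((j : ℝ) + 1) * (j + 2)) - 1 / (24 * ((j : ℝ) + 1 + 1) * (j + 1 + 2)) := by
      have h3 : 1 / (24 * ((j : ℝ) + 1) * (j + 2)) - 1 / (24 * ((j : ℝ) + 1 + 1) * (j + 1 + 2)) =
          1 / (12 * ((j : ℝ) + 1) * (j + 2) * (j + 3)) := by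
        field_simp
        ring
      rw [h3]
      apply one_div_le_one_div_of_le (by positivity)
      have : 0 ≤ (j : ℝ) ^ 2 := by positivity
      nlinarith
    linarith
  have htend : Tendsto w atTop (𝓝 Real.eulerMascheroniConstant) := by
    have h1 := u_tendsto.comp (tendsto_add_atTop_nat 1)
    have h2 : Tendsto (fun j : ℕ => 1 / (24 * ((j : ℝ) + 1) * (j + 2))) atTop (𝓝 0) := by
      apply squeeze_zero (g := fun j : ℕ => 1 / ((j : ℝ) + 1)) (fun j => by positivity)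
      · intro j
        apply one_div_le_one_div_of_le (by positivity)
        have hj : (0 : ℝ) ≤ j := Nat.cast_nonneg j
        nlinarith
      · exact tendsto_one_div_add_atTop_nhds_zero_nat
    have h3 := h1.sub h2
    rw [sub_zero] at h3
    rw [hw]
    exact h3
  have h1 := hmono.ge_of_tendsto htend (n - 1)
  rw [hw] at h1
  simp only at h1
  have h2 : n - 1 + 1 = n := by omega
  rw [h2] at h1
  have h3 : ((n - 1 : ℕ) : ℝ) = (n : ℝ) - 1 := by
    rw [Nat.cast_sub hn]; simp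
  rw [h3] at h1
  have h4 : 24 * ((n : ℝ) - 1 + 1) * ((n : ℝ) - 1 + 2) = 24 * (n : ℝ) * (n + 1) := by ring
  rw [h4] at h1
  linarith

theorem exp_lower (n : ℕ) :
    (n : ℝ) + 1 / 2 < Real.exp (((harmonic n : ℚ) : ℝ) - Real.eulerMascheroniConstant) := by
  have h := gamma_lt_u n
  unfold u at h
  have h0 : (0 : ℝ) < (n : ℝ) + 1 / 2 := by positivity
  rw [← Real.log_lt_iff_lt_exp h0]
  linarith

theorem exp_upper (n : ℕ) (hn : 1 ≤ n) :
    Real.exp (((harmonic n : ℚ) : ℝ) - Real.eulerMascheroniConstant) ≤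
      (n : ℝ) + 1 / 2 + 1 / (12 * n) := by
  have h := u_le n hn
  unfold u at h
  have h0 : (0 : ℝ) < (n : ℝ) + 1 / 2 := by positivity
  have hn' : (1 : ℝ) ≤ n := by exact_mod_cast hn
  have h1 : Real.exp (((harmonic n : ℚ) : ℝ) - Real.eulerMascheroniConstant) ≤
      ((n : ℝ) + 1 / 2) * Real.exp (1 / (24 * (n : ℝ) * (n + 1))) := by
    have h2 : ((n : ℝ) + 1 / 2) * Real.exp (1 / (24 * (n : ℝ) * (n + 1))) =
        Real.exp (Real.log ((n : ℝ) + 1 / 2) + 1 / (24 * (n : ℝ) * (n + 1))) := by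
      rw [Real.exp_add, Real.exp_log h0]
    rw [h2]
    apply Real.exp_le_exp.2
    linarith
  have hy1 : 1 / (24 * (n : ℝ) * (n + 1)) ≤ 1 := by
    rw [div_le_one (by positivity)]
    nlinarith
  have hy0 : 0 < 1 / (24 * (n : ℝ) * (n + 1)) := by positivity
  have h3 : Real.exp (1 / (24 * (n : ℝ) * (n + 1))) ≤ 1 + 2 * (1 / (24 * (n : ℝ) * (n + 1))) := by
    have h4 := Real.abs_exp_sub_one_sub_id_le (x := 1 / (24 * (n : ℝ) * (n + 1)))
      (by rw [abs_of_pos hy0]; exact hy1)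
    have h5 := (abs_le.1 h4).2
    nlinarith
  refine h1.trans ((mul_le_mul_of_nonneg_left h3 h0.le).trans ?_)
  have h6 : ((n : ℝ) + 1 / 2) * (1 + 2 * (1 / (24 * (n : ℝ) * (n + 1)))) =
      (n : ℝ) + 1 / 2 + (2 * n + 1) / (24 * n * (n + 1)) := by
    field_simp
  rw [h6]
  have h7 : (2 * (n : ℝ) + 1) / (24 * n * (n + 1)) ≤ 1 / (12 * n) := by
    rw [div_le_div_iff₀ (by positivity) (by positivity)]
    nlinarith
  linarith

end TH456.HN
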