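import Mathlib
import Pool.Agent.TH456.HN.ConvE
import Pool.Agent.TH456.HN.Harm

set_option autoImplicit false

/-! No three consecutive `k` are exceptional. -/

namespace TH456.CE

theorem q_succ (n : ℕ) (hn : 1 ≤ n) : q (n + 1) = (4 * (n : ℤ) + 2) * q n + q (n - 1) := by
  obtain ⟨j, rfl⟩ : ∃ j, n = j + 1 := ⟨n - 1, by omega⟩
  show (4 * (j : ℤ) + 6) * q (j + 1) + q j = _
  push_cast
  ring_nf

theorem q_pos' (n : ℕ) : 1 ≤ q n := (q_pos n).1

theorem q_mono (n : ℕ) : q n ≤ q (n + 1) := by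
  rcases n with _ | n
  · decide
  · show q (n + 1) ≤ (4 * (n : ℤ) + 6) * q (n + 1) + q n
    have h1 := q_pos' (n + 1)
    have h2 := q_pos' n
    have : (0 : ℤ) ≤ n := Int.natCast_nonneg n
    nlinarith

theorem q_lower (n : ℕ) : 4 * (n : ℤ) + 7 ≤ q (n + 2) := by
  induction n with
  | zero => decide
  | succ n ih =>
    show 4 * ((n + 1 : ℕ) : ℤ) + 7 ≤ (4 * ((n + 1 : ℕ) : ℤ) + 6) * q (n + 2) + q (n + 1)
    have h2 := q_pos' (n + 1)
    have : (0 : ℤ) ≤ n := Int.natCast_nonneg n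
    push_cast
    nlinarith

theorem I_anti (n : ℕ) : I (n + 1) ≤ I n := by
  have h := I_rec n
  have h1 := I_pos (n + 2)
  have h2 := I_pos (n + 1)
  have : (0 : ℝ) ≤ n := Nat.cast_nonneg n
  nlinarith

theorem even_lt_two {D : ℤ} (hD : Even D) (h : |(D : ℝ)| < 2) : D = 0 := by
  have h1 : |D| < 2 := by
    rw [← Int.cast_abs] at h
    exact_mod_cast h
  obtain ⟨r, hr⟩ := hD
  rw [abs_lt] at h1
  omega

/-- Two odd integers `m₀, m₁` with `m₁` very close to `e m₀` are a small multiple of a special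
convergent. -/
theorem pair (m₀ m₁ : ℤ) (h9 : 9 ≤ m₀) (o0 : Odd m₀) (o1 : Odd m₁)
    (h01 : |(m₁ : ℝ) - Real.exp 1 * m₀| ≤ 1.02 / m₀) :
    ∃ n : ℕ, 2 ≤ n ∧ ∃ g : ℤ, 1 ≤ g ∧ m₀ = g * q n ∧ m₁ = g * p n ∧
      (g : ℝ) ^ 2 ≤ 1.02 * (4 * n + 3) := by
  have he1 := Real.exp_one_gt_d9
  have he2 := Real.exp_one_lt_d9
  have hm9 : (9 : ℝ) ≤ m₀ := by exact_mod_cast h9
  have hm0 : (0 : ℝ) < m₀ := by linarith
  -- choice of n
  obtain ⟨n, hn2, hlo, hhi⟩ : ∃ n : ℕ, 2 ≤ n ∧ 2 * q n ≤ 3 * m₀ ∧ 3 * m₀ < 2 * q (n + 1) := by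
    have hex : ∃ n : ℕ, 3 * m₀ < 2 * q (n + 1) := by
      refine ⟨m₀.toNat + 1, ?_⟩
      have h1 := q_lower m₀.toNat
      have h2 : ((m₀.toNat : ℕ) : ℤ) = m₀ := Int.toNat_of_nonneg (by omega)
      rw [h2] at h1
      show 3 * m₀ < 2 * q (m₀.toNat + 2)
      omega
    classical
    have hs := Nat.find_spec hex
    have hmin := fun j (hj : j < Nat.find hex) => Nat.find_min hex hj
    have h0 : Nat.find hex ≠ 0 := by
      intro h
      rw [h] at hs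
      have : q (0 + 1) = 1 := rfl
      rw [this] at hs
      omega
    have h1 : Nat.find hex ≠ 1 := by
      intro h
      rw [h] at hs
      have : q (1 + 1) = 7 := by decide
      rw [this] at hs
      omega
    refine ⟨Nat.find hex, by omega, ?_, hs⟩
    have h2 := hmin (Nat.find hex - 1) (by omega)
    have h3 : Nat.find hex - 1 + 1 = Nat.find hex := by omega
    rw [h3] at h2
    omega
  obtain ⟨j, hj⟩ : ∃ j, n = j + 2 := ⟨n - 2, by omega⟩
  have hQ7 : 4 * (n : ℤ) - 1 ≤ q n := by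
    have := q_lower j
    rw [hj]; push_cast; linarith
  have hsucc := q_succ n (by omega)
  have hprev1 := q_pos' (n - 1)
  have hprev2 : q (n - 1) ≤ q n := by
    have := q_mono (n - 1)
    rwa [Nat.sub_add_cancel (by omega : 1 ≤ n)] at this
  have hnZ : (2 : ℤ) ≤ n := by exact_mod_cast hn2
  have hQpos : 7 ≤ q n := by linarith
  have hR10 : 10 * q n ≤ q (n + 1) := by rw [hsucc]; nlinarith
  have hRup : q (n + 1) ≤ (4 * (n : ℤ) + 3) * q n := by rw [hsucc]; linarith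
  -- real versions
  have hI := I_pos n
  have hI1 := I_pos (n + 1)
  have hIs := I_sum n
  have hIa := I_anti n
  have habs := abs_eq n
  obtain ⟨Q, hQ⟩ : ∃ Q : ℝ, Q = (q n : ℝ) := ⟨_, rfl⟩
  obtain ⟨P, hP⟩ : ∃ P : ℝ, P = (p n : ℝ) := ⟨_, rfl⟩
  obtain ⟨R, hR⟩ : ∃ R : ℝ, R = (q (n + 1) : ℝ) := ⟨_, rfl⟩
  obtain ⟨ε, hε⟩ : ∃ ε : ℝ, ε = I n := ⟨_, rfl⟩
  have rQ7 : (7 : ℝ) ≤ Q := by rw [hQ]; exact_mod_cast hQpos
  have rQ0 : (0 : ℝ) < Q := by linarith
  have rR10 : 10 * Q ≤ R := by rw [hQ, hR]; exact_mod_cast hR10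
  have rR0 : (0 : ℝ) < R := by linarith
  have rlo : 2 * Q ≤ 3 * m₀ := by rw [hQ]; exact_mod_cast hlo
  have rhi : 3 * (m₀ : ℝ) < 2 * R := by rw [hR]; exact_mod_cast hhi
  rw [← hQ, ← hR, ← hε] at hIs
  rw [← hε] at hIa hI habs
  rw [← hQ, ← hP] at habs
  have hRε : R * ε < 2 := by
    have : 0 < Q * I (n + 1) := mul_pos rQ0 hI1
    linarith
  have hRε1 : 1 ≤ R * ε := by
    have h1 : Q * I (n + 1) ≤ Q * ε := mul_le_mul_of_nonneg_left hIa rQ0.le
    have h2 : Q * ε ≤ R * ε := mul_le_mul_of_nonneg_right (by linarith) hI.le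
    linarith
  have hQε : Q * ε ≤ 0.2 := by
    have h1 : 10 * Q * ε ≤ R * ε := mul_le_mul_of_nonneg_right rR10 hI.le
    linarith
  -- first determinant
  have hD : m₁ * q n - m₀ * p n = 0 := by
    apply even_lt_two
    · exact (o1.mul (odd_pq n).1.2).sub_odd (o0.mul (odd_pq n).1.1)
    · push_cast
      rw [← hQ, ← hP]
      have e1 : (m₁ : ℝ) * Q - m₀ * P = Q * (m₁ - Real.exp 1 * m₀) + m₀ * (Real.exp 1 * Q - P) := by ring
      rw [e1]
      refine lt_of_le_of_lt (abs_add_le _ _) ?_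
      rw [abs_mul, abs_mul, habs, abs_of_pos rQ0, abs_of_pos hm0]
      have h1 : Q * |(m₁ : ℝ) - Real.exp 1 * m₀| ≤ Q * (1.02 / m₀) :=
        mul_le_mul_of_nonneg_left h01 rQ0.le
      have h2 : Q * (1.02 / m₀) = 1.02 * (Q / m₀) := by ring
      by_cases hc : (m₀ : ℝ) ≤ 2 * Q
      · have h3 : Q / m₀ ≤ 3 / 2 := by
          rw [div_le_iff₀ hm0]; linarith
        have h4 : m₀ * ε ≤ 2 * Q * ε := mul_le_mul_of_nonneg_right hc hI.le
        have h5 : 2 * Q * ε = 2 * (Q * ε) := by ring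
        linarith
      · push Not at hc
        have h3 : Q / m₀ ≤ 1 / 2 := by
          rw [div_le_iff₀ hm0]; linarith
        have h4 : 3 * (m₀ : ℝ) * ε ≤ 2 * R * ε := mul_le_mul_of_nonneg_right rhi.le hI.le
        have h5 : 2 * R * ε = 2 * (R * ε) := by ring
        linarith
  have hcop := coprime_pq n
  obtain ⟨g, hg⟩ : q n ∣ m₀ := by
    have h1 : q n ∣ m₀ * p n := ⟨m₁, by linarith⟩
    exact hcop.dvd_of_dvd_mul_right h1
  have hm1 : m₁ = g * p n := by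
    have h1 : q n * m₁ = q n * (g * p n) := by
      have : m₁ * q n = m₀ * p n := by linarith
      rw [hg] at this
      linarith
    exact mul_left_cancel₀ (by omega) h1
  have hg1 : 1 ≤ g := by
    by_contra hcon
    have h1 : g ≤ 0 := by omega
    have h2 : q n * g ≤ 0 := mul_nonpos_of_nonneg_of_nonpos (by omega) h1
    omega
  obtain ⟨G, hG⟩ : ∃ G : ℝ, G = (g : ℝ) := ⟨_, rfl⟩
  have rG1 : (1 : ℝ) ≤ G := by rw [hG]; exact_mod_cast hg1
  have rm0 : (m₀ : ℝ) = Q * G := by rw [hG, hQ, hg]; push_cast; ring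
  have rm1 : (m₁ : ℝ) = G * P := by rw [hG, hP, hm1]; push_cast; ring
  have hGε : G * ε * (Q * G) ≤ 1.02 := by
    have h1 : (m₁ : ℝ) - Real.exp 1 * m₀ = -(G * (Real.exp 1 * Q - P)) := by rw [rm0, rm1]; ring
    rw [h1, abs_neg, abs_mul, habs, abs_of_pos (by linarith : (0 : ℝ) < G), le_div_iff₀ hm0, rm0] at h01
    exact h01
  refine ⟨n, hn2, g, hg1, by rw [hg]; ring, hm1, ?_⟩
  have rRup : R ≤ (4 * (n : ℝ) + 3) * Q := by rw [hR, hQ]; exact_mod_cast hRup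
  rw [← hG]
  have hG0 : 0 < G := by linarith
  have h3 : 1 ≤ (4 * (n : ℝ) + 3) * Q * ε := by
    have := mul_le_mul_of_nonneg_right rRup hI.le
    linarith
  have h4 : 0 ≤ G ^ 2 := by positivity
  have h5 : 1 * G ^ 2 ≤ ((4 * (n : ℝ) + 3) * Q * ε) * G ^ 2 := mul_le_mul_of_nonneg_right h3 h4
  have h6 : ((4 * (n : ℝ) + 3) * Q * ε) * G ^ 2 = (4 * (n : ℝ) + 3) * (G * ε * (Q * G)) := by ring
  have h7 : (4 * (n : ℝ) + 3) * (G * ε * (Q * G)) ≤ (4 * (n : ℝ) + 3) * 1.02 :=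
    mul_le_mul_of_nonneg_left hGε (by positivity)
  linarith

/-- Odd integers `m₀, m₁, m₂` cannot be too close to a geometric progression of ratio `e`. -/
theorem main (m₀ m₁ m₂ : ℤ) (h9 : 9 ≤ m₀) (o0 : Odd m₀) (o1 : Odd m₁) (o2 : Odd m₂)
    (h01 : |(m₁ : ℝ) - Real.exp 1 * m₀| ≤ 1.02 / m₀) (h12 : |(m₂ : ℝ) - Real.exp 1 * m₁| ≤ 1.02 / m₁) :
    False := by
  have he1 := Real.exp_one_gt_d9
  have he2 := Real.exp_one_lt_d9
  have hm9 : (9 : ℝ) ≤ m₀ := by exact_mod_cast h9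
  have hm0 : (0 : ℝ) < m₀ := by linarith
  -- choice of n
  obtain ⟨n, hn2, hlo, hhi⟩ : ∃ n : ℕ, 2 ≤ n ∧ 2 * q n ≤ 3 * m₀ ∧ 3 * m₀ < 2 * q (n + 1) := by
    have hex : ∃ n : ℕ, 3 * m₀ < 2 * q (n + 1) := by
      refine ⟨m₀.toNat + 1, ?_⟩
      have h1 := q_lower m₀.toNat
      have h2 : ((m₀.toNat : ℕ) : ℤ) = m₀ := Int.toNat_of_nonneg (by omega)
      rw [h2] at h1
      show 3 * m₀ < 2 * q (m₀.toNat + 2)
      omega
    classical
    have hs := Nat.find_spec hex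
    have hmin := fun j (hj : j < Nat.find hex) => Nat.find_min hex hj
    have h0 : Nat.find hex ≠ 0 := by
      intro h
      rw [h] at hs
      have : q (0 + 1) = 1 := rfl
      rw [this] at hs
      omega
    have h1 : Nat.find hex ≠ 1 := by
      intro h
      rw [h] at hs
      have : q (1 + 1) = 7 := by decide
      rw [this] at hs
      omega
    refine ⟨Nat.find hex, by omega, ?_, hs⟩
    have h2 := hmin (Nat.find hex - 1) (by omega)
    have h3 : Nat.find hex - 1 + 1 = Nat.find hex := by omega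
    rw [h3] at h2
    omega
  obtain ⟨j, hj⟩ : ∃ j, n = j + 2 := ⟨n - 2, by omega⟩
  have hQ7 : 4 * (n : ℤ) - 1 ≤ q n := by
    have := q_lower j
    rw [hj]; push_cast; linarith
  have hsucc := q_succ n (by omega)
  have hprev1 := q_pos' (n - 1)
  have hprev2 : q (n - 1) ≤ q n := by
    have := q_mono (n - 1)
    rwa [Nat.sub_add_cancel (by omega : 1 ≤ n)] at this
  have hnZ : (2 : ℤ) ≤ n := by exact_mod_cast hn2
  have hQpos : 7 ≤ q n := by linarith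
  have hR10 : 10 * q n ≤ q (n + 1) := by rw [hsucc]; nlinarith
  have hRup : q (n + 1) ≤ (4 * (n : ℤ) + 3) * q n := by rw [hsucc]; linarith
  -- real versions
  have hI := I_pos n
  have hI1 := I_pos (n + 1)
  have hIs := I_sum n
  have hIa := I_anti n
  have habs := abs_eq n
  obtain ⟨Q, hQ⟩ : ∃ Q : ℝ, Q = (q n : ℝ) := ⟨_, rfl⟩
  obtain ⟨P, hP⟩ : ∃ P : ℝ, P = (p n : ℝ) := ⟨_, rfl⟩
  obtain ⟨R, hR⟩ : ∃ R : ℝ, R = (q (n + 1) : ℝ) := ⟨_, rfl⟩
  obtain ⟨ε, hε⟩ : ∃ ε : ℝ, ε = I n := ⟨_, rfl⟩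
  have rQ7 : (7 : ℝ) ≤ Q := by rw [hQ]; exact_mod_cast hQpos
  have rQ0 : (0 : ℝ) < Q := by linarith
  have rR10 : 10 * Q ≤ R := by rw [hQ, hR]; exact_mod_cast hR10
  have rR0 : (0 : ℝ) < R := by linarith
  have rlo : 2 * Q ≤ 3 * m₀ := by rw [hQ]; exact_mod_cast hlo
  have rhi : 3 * (m₀ : ℝ) < 2 * R := by rw [hR]; exact_mod_cast hhi
  rw [← hQ, ← hR, ← hε] at hIs
  rw [← hε] at hIa hI habs
  rw [← hQ, ← hP] at habs
  have hRε : R * ε < 2 := by
    have : 0 < Q * I (n + 1) := mul_pos rQ0 hI1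
    linarith
  have hRε1 : 1 ≤ R * ε := by
    have h1 : Q * I (n + 1) ≤ Q * ε := mul_le_mul_of_nonneg_left hIa rQ0.le
    have h2 : Q * ε ≤ R * ε := mul_le_mul_of_nonneg_right (by linarith) hI.le
    linarith
  have hQε : Q * ε ≤ 0.2 := by
    have h1 : 10 * Q * ε ≤ R * ε := mul_le_mul_of_nonneg_right rR10 hI.le
    linarith
  -- first determinant
  have hD : m₁ * q n - m₀ * p n = 0 := by
    apply even_lt_two
    · exact (o1.mul (odd_pq n).1.2).sub_odd (o0.mul (odd_pq n).1.1)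
    · push_cast
      rw [← hQ, ← hP]
      have e1 : (m₁ : ℝ) * Q - m₀ * P = Q * (m₁ - Real.exp 1 * m₀) + m₀ * (Real.exp 1 * Q - P) := by ring
      rw [e1]
      refine lt_of_le_of_lt (abs_add_le _ _) ?_
      rw [abs_mul, abs_mul, habs, abs_of_pos rQ0, abs_of_pos hm0]
      have h1 : Q * |(m₁ : ℝ) - Real.exp 1 * m₀| ≤ Q * (1.02 / m₀) :=
        mul_le_mul_of_nonneg_left h01 rQ0.le
      have h2 : Q * (1.02 / m₀) = 1.02 * (Q / m₀) := by ring
      by_cases hc : (m₀ : ℝ) ≤ 2 * Q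
      · have h3 : Q / m₀ ≤ 3 / 2 := by
          rw [div_le_iff₀ hm0]; linarith
        have h4 : m₀ * ε ≤ 2 * Q * ε := mul_le_mul_of_nonneg_right hc hI.le
        have h5 : 2 * Q * ε = 2 * (Q * ε) := by ring
        linarith
      · push Not at hc
        have h3 : Q / m₀ ≤ 1 / 2 := by
          rw [div_le_iff₀ hm0]; linarith
        have h4 : 3 * (m₀ : ℝ) * ε ≤ 2 * R * ε := mul_le_mul_of_nonneg_right rhi.le hI.le
        have h5 : 2 * R * ε = 2 * (R * ε) := by ring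
        linarith
  have hcop := coprime_pq n
  obtain ⟨g, hg⟩ : q n ∣ m₀ := by
    have h1 : q n ∣ m₀ * p n := ⟨m₁, by linarith⟩
    exact hcop.dvd_of_dvd_mul_right h1
  have hm1 : m₁ = g * p n := by
    have h1 : q n * m₁ = q n * (g * p n) := by
      have : m₁ * q n = m₀ * p n := by linarith
      rw [hg] at this
      linarith
    exact mul_left_cancel₀ (by omega) h1
  have hg1 : 1 ≤ g := by
    by_contra hcon
    have h1 : g ≤ 0 := by omega
    have h2 : q n * g ≤ 0 := mul_nonpos_of_nonneg_of_nonpos (by omega) h1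
    omega
  obtain ⟨G, hG⟩ : ∃ G : ℝ, G = (g : ℝ) := ⟨_, rfl⟩
  have rG1 : (1 : ℝ) ≤ G := by rw [hG]; exact_mod_cast hg1
  have rm0 : (m₀ : ℝ) = Q * G := by rw [hG, hQ, hg]; push_cast; ring
  have rm1 : (m₁ : ℝ) = G * P := by rw [hG, hP, hm1]; push_cast; ring
  have hGε : G * ε * (Q * G) ≤ 1.02 := by
    have h1 : (m₁ : ℝ) - Real.exp 1 * m₀ = -(G * (Real.exp 1 * Q - P)) := by rw [rm0, rm1]; ring
    rw [h1, abs_neg, abs_mul, habs, abs_of_pos (by linarith : (0 : ℝ) < G), le_div_iff₀ hm0, rm0] at h01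
    exact h01
  -- size of P
  have hε02 : ε ≤ 0.03 := by
    have : 7 * ε ≤ Q * ε := mul_le_mul_of_nonneg_right rQ7 hI.le
    linarith
  have hPQ := abs_le.1 habs.le
  have hPlo : 2.6 * Q ≤ P := by nlinarith [hPQ.1, hPQ.2]
  have hPhi : P ≤ 2.75 * Q := by nlinarith [hPQ.1, hPQ.2]
  have rP0 : 0 < P := by linarith
  have rm1pos : (0 : ℝ) < m₁ := by rw [rm1]; positivity
  -- second determinant
  have hD' : m₂ * q n - m₁ * p n = 0 := by
    apply even_lt_two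
    · exact (o2.mul (odd_pq n).1.2).sub_odd (o1.mul (odd_pq n).1.1)
    · push_cast
      rw [← hQ, ← hP]
      have e1 : (m₂ : ℝ) * Q - m₁ * P = Q * (m₂ - Real.exp 1 * m₁) + m₁ * (Real.exp 1 * Q - P) := by ring
      rw [e1]
      refine lt_of_le_of_lt (abs_add_le _ _) ?_
      rw [abs_mul, abs_mul, habs, abs_of_pos rQ0, abs_of_pos rm1pos]
      have h1 : Q * |(m₂ : ℝ) - Real.exp 1 * m₁| ≤ Q * (1.02 / m₁) :=
        mul_le_mul_of_nonneg_left h12 rQ0.le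
      have h2 : Q * (1.02 / m₁) = 1.02 * (Q / m₁) := by ring
      have h3 : Q / m₁ ≤ 1 / 2.6 := by
        rw [div_le_div_iff₀ rm1pos (by norm_num), rm1]
        have : 1 * P ≤ G * P := mul_le_mul_of_nonneg_right rG1 rP0.le
        linarith
      have h4 : (m₁ : ℝ) * ε ≤ 1.41 := by
        rw [rm1]
        rcases eq_or_lt_of_le hg1 with h5 | h5
        · have h6 : G = 1 := by rw [hG, ← h5]; norm_num
          rw [h6, one_mul]
          have h7 : P * ε ≤ 2.75 * Q * ε := mul_le_mul_of_nonneg_right hPhi hI.le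
          linarith
        · have h6 : (2 : ℝ) ≤ G := by rw [hG]; exact_mod_cast h5
          have h7 : G * P * ε ≤ G * (2.75 * Q) * ε :=
            mul_le_mul_of_nonneg_right (mul_le_mul_of_nonneg_left hPhi (by linarith)) hI.le
          have h8 : 2 * (G * (Q * ε)) ≤ G * (G * (Q * ε)) :=
            mul_le_mul_of_nonneg_right h6 (by positivity)
          linarith
      linarith
  have hQg : q n ∣ g := by
    have h1 : q n ∣ g * p n * p n := by
      refine ⟨m₂, ?_⟩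
      rw [← hm1]
      linarith
    exact hcop.dvd_of_dvd_mul_right (hcop.dvd_of_dvd_mul_right h1)
  have hgQ : q n ≤ g := Int.le_of_dvd (by omega) hQg
  have rGQ : Q ≤ G := by rw [hQ, hG]; exact_mod_cast hgQ
  -- contradiction
  have h1 : Q * ε * (Q * Q) ≤ 1.02 := by
    refine le_trans ?_ hGε
    have h2 : Q * ε ≤ G * ε := mul_le_mul_of_nonneg_right rGQ hI.le
    have h3 : Q * Q ≤ Q * G := mul_le_mul_of_nonneg_left rGQ rQ0.le
    exact mul_le_mul h2 h3 (by positivity) (by positivity)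
  have rRup : R ≤ (4 * (n : ℝ) + 3) * Q := by rw [hR, hQ]; exact_mod_cast hRup
  have rQn : 4 * (n : ℝ) - 1 ≤ Q := by rw [hQ]; exact_mod_cast hQ7
  have h2 : Q * Q ≤ 1.02 * (4 * (n : ℝ) + 3) := by
    have h3 : 1 ≤ (4 * (n : ℝ) + 3) * Q * ε := by
      have := mul_le_mul_of_nonneg_right rRup hI.le
      linarith
    have h4 : 0 ≤ Q * Q := by positivity
    have h5 : 1 * (Q * Q) ≤ ((4 * (n : ℝ) + 3) * Q * ε) * (Q * Q) := mul_le_mul_of_nonneg_right h3 h4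
    have h6 : ((4 * (n : ℝ) + 3) * Q * ε) * (Q * Q) = (4 * (n : ℝ) + 3) * (Q * ε * (Q * Q)) := by ring
    have h7 : (4 * (n : ℝ) + 3) * (Q * ε * (Q * Q)) ≤ (4 * (n : ℝ) + 3) * 1.02 :=
      mul_le_mul_of_nonneg_left h1 (by positivity)
    linarith
  have h3 : 7 * Q ≤ Q * Q := mul_le_mul_of_nonneg_right rQ7 rQ0.le
  have h4 : (2 : ℝ) ≤ n := by exact_mod_cast hn2
  linarith

/-! ### thresholds of the harmonic numbers -/

/-- `n = n_k` and `|n - e^{k-γ}| ≥ 1/2`, for the integer `k ≥ 2`. -/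
theorem exc_bounds (k n : ℕ) (hk : 2 ≤ k)
    (h1 : ((harmonic (n - 1) : ℚ) : ℝ) < (k : ℝ)) (h2 : (k : ℝ) < ((harmonic n : ℚ) : ℝ))
    (h3 : 1 / 2 ≤ |(n : ℝ) - Real.exp ((k : ℝ) - Real.eulerMascheroniConstant)|) :
    4 ≤ n ∧ 2 * (n : ℝ) + 1 ≤ 2 * Real.exp ((k : ℝ) - Real.eulerMascheroniConstant) ∧
      2 * Real.exp ((k : ℝ) - Real.eulerMascheroniConstant) ≤ 2 * (n : ℝ) + 1 + 1 / (6 * n) := by
  have hkr : (2 : ℝ) ≤ k := by exact_mod_cast hk
  have hn4 : 4 ≤ n := by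
    by_contra hcon
    have h4 : n = 0 ∨ n = 1 ∨ n = 2 ∨ n = 3 := by omega
    rcases h4 with rfl | rfl | rfl | rfl <;> norm_num [harmonic_succ] at h2 <;> linarith
  have hnr : (4 : ℝ) ≤ n := by exact_mod_cast hn4
  set y : ℝ := Real.exp ((k : ℝ) - Real.eulerMascheroniConstant) with hy
  have hlow : (n : ℝ) - 1 / 2 < y := by
    have h5 := TH456.HN.exp_lower (n - 1)
    have h6 : ((n - 1 : ℕ) : ℝ) = (n : ℝ) - 1 := by rw [Nat.cast_sub (by omega)]; simp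
    rw [h6] at h5
    have h7 : Real.exp (((harmonic (n - 1) : ℚ) : ℝ) - Real.eulerMascheroniConstant) < y :=
      Real.exp_lt_exp.2 (by linarith)
    linarith
  have hup : y < (n : ℝ) + 1 / 2 + 1 / (12 * n) :=
    lt_of_lt_of_le (Real.exp_lt_exp.2 (by linarith)) (TH456.HN.exp_upper n (by omega))
  have e6 : 1 / (6 * (n : ℝ)) = 2 * (1 / (12 * (n : ℝ))) := by field_simp; norm_num
  refine ⟨hn4, ?_, by linarith⟩
  rcases le_total y n with hle | hle
  · rw [abs_of_nonneg (by linarith)] at h3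
    linarith
  · rw [abs_of_nonpos (by linarith)] at h3
    linarith

theorem consec (k n n' : ℕ) (hk : 2 ≤ k)
    (h1 : ((harmonic (n - 1) : ℚ) : ℝ) < (k : ℝ)) (h2 : (k : ℝ) < ((harmonic n : ℚ) : ℝ))
    (h3 : 1 / 2 ≤ |(n : ℝ) - Real.exp ((k : ℝ) - Real.eulerMascheroniConstant)|)
    (h1' : ((harmonic (n' - 1) : ℚ) : ℝ) < ((k + 1 : ℕ) : ℝ)) (h2' : ((k + 1 : ℕ) : ℝ) < ((harmonic n' : ℚ) : ℝ))
    (h3' : 1 / 2 ≤ |(n' : ℝ) - Real.exp (((k + 1 : ℕ) : ℝ) - Real.eulerMascheroniConstant)|) :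
    |((2 * (n' : ℤ) + 1 : ℤ) : ℝ) - Real.exp 1 * ((2 * (n : ℤ) + 1 : ℤ) : ℝ)| ≤
      1.02 / ((2 * (n : ℤ) + 1 : ℤ) : ℝ) ∧ 9 ≤ 2 * (n : ℤ) + 1 := by
  obtain ⟨a1, a2, a3⟩ := exc_bounds k n hk h1 h2 h3
  obtain ⟨b1, b2, b3⟩ := exc_bounds (k + 1) n' (by omega) h1' h2' h3'
  have he1 := Real.exp_one_gt_d9
  have he2 := Real.exp_one_lt_d9
  have hn4 : (4 : ℝ) ≤ n := by exact_mod_cast a1
  have hn4' : (4 : ℝ) ≤ n' := by exact_mod_cast b1
  obtain ⟨y, hy⟩ : ∃ y : ℝ, y = 2 * Real.exp ((k : ℝ) - Real.eulerMascheroniConstant) := ⟨_, rfl⟩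
  have hy' : 2 * Real.exp (((k + 1 : ℕ) : ℝ) - Real.eulerMascheroniConstant) = Real.exp 1 * y := by
    rw [hy]
    have : ((k + 1 : ℕ) : ℝ) - Real.eulerMascheroniConstant =
      1 + ((k : ℝ) - Real.eulerMascheroniConstant) := by push_cast; ring
    rw [this, Real.exp_add]
    ring
  rw [← hy] at a2 a3
  rw [hy'] at b2 b3
  have c1 : 1 / (6 * (n : ℝ)) ≤ 0.375 / (2 * n + 1) := by
    rw [div_le_div_iff₀ (by positivity) (by positivity)]
    linarith
  have c2 : 1 / (6 * (n' : ℝ)) ≤ 1.02 / (2 * n + 1) := by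
    -- n' ≥ n
    have d1 : (n : ℝ) ≤ n' := by
      have d2 : 1 / (6 * (n' : ℝ)) ≤ 1 := by
        rw [div_le_one (by positivity)]; linarith
      nlinarith
    rw [div_le_div_iff₀ (by positivity) (by positivity)]
    linarith
  have hpos : (0 : ℝ) < 2 * n + 1 := by positivity
  refine ⟨?_, by omega⟩
  push_cast
  rw [abs_le]
  have c3 : Real.exp 1 * (0.375 / (2 * (n : ℝ) + 1)) ≤ 1.02 / (2 * n + 1) := by
    rw [← mul_div_assoc]
    apply div_le_div_of_nonneg_right _ hpos.le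
    linarith
  have hq0 : 0 < 1 / (6 * (n : ℝ)) := by positivity
  have hq1 : 0 < 1 / (6 * (n' : ℝ)) := by positivity
  have c4 : Real.exp 1 * (y - (2 * n + 1)) ≤ Real.exp 1 * (0.375 / (2 * (n : ℝ) + 1)) :=
    mul_le_mul_of_nonneg_left (by linarith) (Real.exp_pos 1).le
  have c5 : 0 ≤ Real.exp 1 * (y - (2 * n + 1)) := mul_nonneg (Real.exp_pos 1).le (by linarith)
  constructor
  · linarith
  · linarith

end TH456.CE
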