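import Mathlib
import Pool.Agent.TH456.HN.Harm

set_option autoImplicit false

namespace TH456.HN

open Filter Topology Finset

/-- `n = n_k` (i.e. `H_{n-1} < k < H_n`) and `|n - e^{k-γ}| ≥ 1/2 - δ`. -/
def NearHalf (δ : ℝ) (k : ℕ) : Prop :=
  ∃ n : ℕ, ((harmonic (n - 1) : ℚ) : ℝ) < (k : ℝ) ∧ (k : ℝ) < ((harmonic n : ℚ) : ℝ) ∧
    1 / 2 - δ ≤ |(n : ℝ) - Real.exp ((k : ℝ) - Real.eulerMascheroniConstant)|

theorem near_int (k n : ℕ) (δ : ℝ) (hδ : 0 ≤ δ) (hk : 1 ≤ k)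
    (h1 : ((harmonic (n - 1) : ℚ) : ℝ) < (k : ℝ)) (h2 : (k : ℝ) < ((harmonic n : ℚ) : ℝ))
    (h3 : 1 / 2 - δ ≤ |(n : ℝ) - Real.exp ((k : ℝ) - Real.eulerMascheroniConstant)|) :
    |(2 * Real.exp (-Real.eulerMascheroniConstant)) * Real.exp k
      - round ((2 * Real.exp (-Real.eulerMascheroniConstant)) * Real.exp k)| ≤
        2 * δ + Real.exp (-(k : ℝ)) := by
  have hkr : (1 : ℝ) ≤ k := by exact_mod_cast hk
  have hn1 : 2 ≤ n := by
    by_contra hcon
    have h4 : n = 0 ∨ n = 1 := by omega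
    rcases h4 with rfl | rfl
    · simp at h2
      linarith
    · simp [harmonic_succ] at h2
      linarith
  have hnr : (2 : ℝ) ≤ n := by exact_mod_cast hn1
  set y : ℝ := Real.exp ((k : ℝ) - Real.eulerMascheroniConstant) with hy
  have e0 : (2 * Real.exp (-Real.eulerMascheroniConstant)) * Real.exp k = 2 * y := by
    rw [hy, mul_assoc, ← Real.exp_add]
    congr 2
    ring
  rw [e0]
  have hlow : (n : ℝ) - 1 / 2 < y := by
    have h5 := exp_lower (n - 1)
    have h6 : ((n - 1 : ℕ) : ℝ) = (n : ℝ) - 1 := by rw [Nat.cast_sub (by omega)]; simp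
    rw [h6] at h5
    have h7 : Real.exp (((harmonic (n - 1) : ℚ) : ℝ) - Real.eulerMascheroniConstant) < y :=
      Real.exp_lt_exp.2 (by linarith)
    linarith
  have hup : y < (n : ℝ) + 1 / 2 + 1 / (12 * n) :=
    lt_of_lt_of_le (Real.exp_lt_exp.2 (by linarith)) (exp_upper n (by omega))
  have h12 : 1 / (12 * (n : ℝ)) ≤ 1 / 2 := by
    apply one_div_le_one_div_of_le (by norm_num)
    linarith
  have hyn : y ≤ 2 * n := by linarith
  have hy0 : 0 < y := Real.exp_pos _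
  have h6n : 1 / (6 * (n : ℝ)) ≤ Real.exp (-(k : ℝ)) := by
    have h7 : Real.exp (-(k : ℝ)) = Real.exp (-Real.eulerMascheroniConstant) / y := by
      rw [hy, eq_div_iff (Real.exp_pos _).ne', ← Real.exp_add]
      congr 1
      ring
    rw [h7]
    have h8 : (1 / 3 : ℝ) ≤ Real.exp (-Real.eulerMascheroniConstant) := by
      have h9 : Real.exp (-1) ≤ Real.exp (-Real.eulerMascheroniConstant) := by
        apply Real.exp_le_exp.2
        have := Real.eulerMascheroniConstant_lt_two_thirds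
        linarith
      have h10 : (1 / 3 : ℝ) ≤ Real.exp (-1) := by
        rw [Real.exp_neg, ← one_div]
        apply one_div_le_one_div_of_le (Real.exp_pos _)
        have := Real.exp_one_lt_d9
        linarith
      linarith
    rw [div_le_div_iff₀ (by positivity) hy0]
    nlinarith
  have hcase : ∃ z : ℤ, |2 * y - z| ≤ 2 * δ + 1 / (6 * (n : ℝ)) := by
    have e6 : 1 / (6 * (n : ℝ)) = 2 * (1 / (12 * (n : ℝ))) := by field_simp; norm_num
    have e6' : 0 < 1 / (12 * (n : ℝ)) := by positivity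
    rcases le_total y n with hle | hle
    · rw [abs_of_nonneg (by linarith)] at h3
      refine ⟨2 * n - 1, ?_⟩
      push_cast
      rw [abs_le]
      constructor <;> linarith
    · rw [abs_of_nonpos (by linarith)] at h3
      refine ⟨2 * n + 1, ?_⟩
      push_cast
      rw [abs_le]
      constructor <;> linarith
  obtain ⟨z, hz⟩ := hcase
  exact (round_le (2 * y) z).trans (hz.trans (by linarith))

theorem nearHalf_window (m : ℕ) (c κ : ℝ) (hm : 1 ≤ m) (hc0 : 0 < c) (hc1 : c ≤ 1) (hκ0 : 0 < κ)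
    (hκ : κ * ((m + 1) * (m - 1 + c * m)) < c * m - 1) [DecidablePred fun k : ℕ => NearHalf (Real.exp (-(c * k))) k] :
    ∃ n₀ : ℕ, ∀ n : ℕ, n₀ ≤ n →
      ((Icc n (n + ⌊(n : ℝ) ^ κ⌋₊)).filter
        (fun k : ℕ => NearHalf (Real.exp (-(c * k))) k)).card ≤ m := by
  have hm0 : (1 : ℝ) ≤ m := by exact_mod_cast hm
  obtain ⟨f, hf⟩ : ∃ f : ℝ, f = c * m - 1 - κ * ((m + 1) * (m - 1 + c * m)) := ⟨_, rfl⟩
  have hf0 : 0 < f := by rw [hf]; linarith
  obtain ⟨ε, hε0, hεc, hεf⟩ : ∃ ε : ℝ, 0 < ε ∧ ε ≤ c / 2 ∧ ε * m ≤ f / 2 := by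
    refine ⟨min (c / 2) (f / 2 / m), lt_min (by positivity) (by positivity), min_le_left _ _, ?_⟩
    calc min (c / 2) (f / 2 / m) * m ≤ f / 2 / m * m :=
          mul_le_mul_of_nonneg_right (min_le_right _ _) (by linarith)
      _ = f / 2 := div_mul_cancel₀ _ (by linarith)
  have hκ' : κ * ((m + 1) * (m - 1 + (c - ε) * m)) < (c - ε) * m - 1 := by
    have h1 : κ * ((m + 1) * (m - 1 + (c - ε) * m)) =
        κ * ((m + 1) * (m - 1 + c * m)) - κ * ((m + 1) * (ε * m)) := by ring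
    have h2 : 0 < κ * ((m + 1) * (ε * m)) := by positivity
    rw [h1]
    nlinarith
  have hγ : (2 * Real.exp (-Real.eulerMascheroniConstant)) ≠ 0 := by positivity
  obtain ⟨n1, hn1⟩ := window' (2 * Real.exp (-Real.eulerMascheroniConstant)) hγ m (c - ε) κ hm
    (by linarith) hκ0 hκ'
  obtain ⟨n2, hn2⟩ := exists_nat_gt (Real.log 3 / ε)
  refine ⟨max n1 (max n2 1), fun n hn => ?_⟩
  have hna : n1 ≤ n := (le_max_left _ _).trans hn
  have hnb : n2 ≤ n := ((le_max_left _ _).trans (le_max_right _ _)).trans hn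
  have hnc : 1 ≤ n := ((le_max_right _ _).trans (le_max_right _ _)).trans hn
  refine le_trans (Finset.card_le_card ?_) (hn1 n hna)
  intro k hk
  rw [mem_filter, mem_Icc] at hk ⊢
  refine ⟨hk.1, ?_⟩
  obtain ⟨q, hq1, hq2, hq3⟩ := hk.2
  have hk1 : 1 ≤ k := hnc.trans hk.1.1
  have h4 := near_int k q (Real.exp (-(c * k))) (Real.exp_pos _).le hk1 hq1 hq2 hq3
  refine h4.trans ?_
  have hkr : (0 : ℝ) ≤ k := Nat.cast_nonneg k
  have h5 : Real.exp (-(k : ℝ)) ≤ Real.exp (-(c * k)) := by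
    apply Real.exp_le_exp.2
    nlinarith
  have h6 : Real.log 3 ≤ ε * k := by
    have h7 : (n2 : ℝ) ≤ k := by exact_mod_cast hnb.trans hk.1.1
    rw [div_lt_iff₀ hε0] at hn2
    nlinarith
  have h8 : 3 * Real.exp (-(c * k)) ≤ Real.exp (-((c - ε) * k)) := by
    have h9 : (3 : ℝ) = Real.exp (Real.log 3) := (Real.exp_log (by norm_num)).symm
    rw [h9, ← Real.exp_add]
    apply Real.exp_le_exp.2
    linarith
  linarith

theorem nearHalf_count (m : ℕ) (c κ : ℝ) (hm : 1 ≤ m) (hc0 : 0 < c) (hc1 : c ≤ 1) (hκ0 : 0 < κ)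
    (hκ : κ * ((m + 1) * (m - 1 + c * m)) < c * m - 1) [DecidablePred fun k : ℕ => NearHalf (Real.exp (-(c * k))) k] :
    ∃ D : ℝ, ∀ X : ℕ, 1 ≤ X →
      (((Icc 1 X).filter (fun k : ℕ => NearHalf (Real.exp (-(c * k))) k)).card : ℝ)
        ≤ D * (X : ℝ) ^ (1 - κ) := by
  have hm0 : (1 : ℝ) ≤ m := by exact_mod_cast hm
  obtain ⟨n₀, hn⟩ := nearHalf_window m c κ hm hc0 hc1 hκ0 hκ
  have hκ1 : κ < 1 := by
    by_contra hcon
    push Not at hcon
    have h1 : (0 : ℝ) ≤ (m + 1) * (m - 1 + c * m) := by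
      have : (0 : ℝ) ≤ m - 1 := by linarith
      positivity
    have h2 := mul_le_mul_of_nonneg_right hcon h1
    have h3 : 0 ≤ c * m := by positivity
    nlinarith
  exact MahlerExp.count_of_window _ m n₀ κ hκ0 hκ1 hn

theorem nearHalf_mono {δ δ' : ℝ} (h : δ ≤ δ') {k : ℕ} (hk : NearHalf δ k) : NearHalf δ' k := by
  obtain ⟨n, h1, h2, h3⟩ := hk
  exact ⟨n, h1, h2, by linarith⟩

end TH456.HN
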